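import Mathlib
set_option autoImplicit false

/-! Integer characters close to a character with finitely generated kernel have finitely
generated kernel. -/

namespace Q31VF

universe u
variable {N : Type u} [Group N]

/-- connectivity within a strip -/
def Step (H : N → ℤ) (B : ℤ) (S : Set N) (p q : N) : Prop := |H p| ≤ B ∧ |H q| ≤ B ∧ p⁻¹ * q ∈ S

abbrev Conn (H : N → ℤ) (B : ℤ) (S : Set N) : N → N → Prop := Relation.ReflTransGen (Step H B S)

variable {H : N → ℤ} {B : ℤ} {S : Set N}

theorem conn_step {p q : N} (h1 : |H p| ≤ B) (h2 : |H q| ≤ B) (h3 : p⁻¹ * q ∈ S) : Conn H B S p q :=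
  Relation.ReflTransGen.single ⟨h1, h2, h3⟩

theorem map_one' (hH : ∀ x y, H (x * y) = H x + H y) : H 1 = 0 := by
  have := hH 1 1
  rw [mul_one] at this
  omega

theorem map_inv' (hH : ∀ x y, H (x * y) = H x + H y) (x : N) : H x⁻¹ = - H x := by
  have := hH x x⁻¹
  rw [mul_inv_cancel, map_one' hH] at this
  omega

theorem map_pow' (hH : ∀ x y, H (x * y) = H x + H y) (x : N) (n : ℕ) : H (x ^ n) = n * H x := by
  induction n with
  | zero => simp [map_one' hH]
  | succ n ih => rw [pow_succ, hH, ih]; push_cast; ring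

theorem map_zpow' (hH : ∀ x y, H (x * y) = H x + H y) (x : N) (n : ℤ) : H (x ^ n) = n * H x := by
  obtain ⟨m, rfl | rfl⟩ := n.eq_nat_or_neg
  · rw [zpow_natCast, map_pow' hH]
  · rw [zpow_neg, zpow_natCast, map_inv' hH, map_pow' hH]; ring

/-- walking along a word -/
theorem conn_word {A : N → N} (hA1 : A 1 = 1) (hA : ∀ x y, A (x * y) = A x * A y) {lo hi : ℤ}
    (Y : Set N) {C : ℤ} (hC : ∀ y ∈ Y, |H (A y)| ≤ C) (hH : ∀ x y, H (x * y) = H x + H y)
    (hconn : ∀ y ∈ Y, ∀ p, lo ≤ H p → H p ≤ hi → Conn H B S p (p * A y)) (l : List N)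
    (hl : ∀ y ∈ l, y ∈ Y) (p : N) (h1 : lo + l.length * C ≤ H p) (h2 : H p + l.length * C ≤ hi) :
    Conn H B S p (p * A l.prod) := by
  induction l generalizing p with
  | nil =>
    rw [List.prod_nil, hA1, mul_one]
  | cons y l ih =>
    have hy : y ∈ Y := hl y List.mem_cons_self
    have hCy := hC y hy
    have hC0 : 0 ≤ C := le_trans (abs_nonneg _) hCy
    rw [abs_le] at hCy
    rw [List.length_cons] at h1 h2
    push_cast at h1 h2
    have hlen : (0 : ℤ) ≤ l.length * C := by positivity
    rw [List.prod_cons, hA, ← mul_assoc]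
    refine (hconn y hy p (by linarith) (by linarith)).trans ?_
    apply ih (fun z hz => hl z (List.mem_cons_of_mem _ hz))
    · rw [hH]; linarith
    · rw [hH]; linarith

section claim
variable (hH : ∀ x y, H (x * y) = H x + H y) (t : N) (Y : Set N) (C : ℤ) (s : ℕ)
  (hY : ∀ y ∈ Y, |H y| ≤ C) (hC0 : 0 ≤ C)
  (hw : ∀ y ∈ Y, ∃ l : List N, (∀ z ∈ l, z ∈ Y) ∧ l.length ≤ s ∧ l.prod = t⁻¹ * y * t)
  (hT : 2 * (s * C) ≤ H t) (hCT : C ≤ H t) (hB : 2 * H t ≤ B)
  (hYS : Y ⊆ S) (ht : t ∈ S) (ht' : t⁻¹ ∈ S)

include hH in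
theorem height_conj (a : ℕ) (y : N) : H ((t ^ a)⁻¹ * y * t ^ a) = H y := by
  rw [hH, hH, map_inv' hH]; ring

include hH hY hC0 hw hT hCT hB hYS ht ht' in
theorem claim (a : ℕ) : ∀ y ∈ Y, ∀ p, |H p| ≤ H t → Conn H B S p (p * ((t ^ a)⁻¹ * y * t ^ a)) := by
  have hsC : (0 : ℤ) ≤ s * C := by positivity
  have hT0 : 0 ≤ H t := by linarith
  induction a with
  | zero =>
    intro y hy p hp
    have h1 := hY y hy
    rw [abs_le] at hp h1
    apply conn_step
    · rw [abs_le]; constructor <;> linarith
    · rw [pow_zero, inv_one, one_mul, mul_one, hH, abs_le]; constructor <;> linarith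
    · rw [pow_zero, inv_one, one_mul, mul_one, inv_mul_cancel_left]
      exact hYS hy
  | succ a ih =>
    -- words for the conjugates
    have word : ∀ (b : ℕ) (lo hi : ℤ), (∀ y ∈ Y, ∀ p, lo ≤ H p → H p ≤ hi →
        Conn H B S p (p * ((t ^ b)⁻¹ * y * t ^ b))) → ∀ y ∈ Y, ∀ p, lo + s * C ≤ H p →
        H p + s * C ≤ hi → Conn H B S p (p * ((t ^ (b + 1))⁻¹ * y * t ^ (b + 1))) := by
      intro b lo hi hconn y hy p h1 h2
      obtain ⟨l, hl1, hl2, hl3⟩ := hw y hy
      have hl : (l.length : ℤ) * C ≤ s * C := by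
        apply mul_le_mul_of_nonneg_right _ hC0
        exact_mod_cast hl2
      have e : (t ^ (b + 1))⁻¹ * y * t ^ (b + 1) = (t ^ b)⁻¹ * l.prod * t ^ b := by
        rw [hl3, pow_succ']; group
      rw [e]
      exact conn_word (A := fun x => (t ^ b)⁻¹ * x * t ^ b) (by simp) (fun x y => by group) Y (C := C)
        (fun y hy => by rw [height_conj hH]; exact hY y hy) hH hconn l hl1 p (by linarith) (by linarith)
    -- good heights
    have good : ∀ y ∈ Y, ∀ p, -(H t - s * C) ≤ H p → H p ≤ H t →
        Conn H B S p (p * ((t ^ (a + 1))⁻¹ * y * t ^ (a + 1))) := by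
      intro y hy p h1 h2
      rcases le_or_gt 0 (H p) with h3 | h3
      · -- go down
        have hy' := hY y hy
        rw [abs_le] at hy'
        have e1 : Conn H B S p (p * t⁻¹) := by
          apply conn_step
          · rw [abs_le]; constructor <;> linarith
          · rw [hH, map_inv' hH, abs_le]; constructor <;> linarith
          · rw [inv_mul_cancel_left]; exact ht'
        have e2 : Conn H B S (p * t⁻¹) (p * t⁻¹ * ((t ^ a)⁻¹ * y * t ^ a)) := by
          apply ih y hy
          rw [hH, map_inv' hH, abs_le]; constructor <;> linarith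
        have e3 : Conn H B S (p * t⁻¹ * ((t ^ a)⁻¹ * y * t ^ a))
            (p * ((t ^ (a + 1))⁻¹ * y * t ^ (a + 1))) := by
          apply conn_step
          · rw [hH, hH, map_inv' hH, height_conj hH, abs_le]; constructor <;> linarith
          · rw [hH, height_conj hH, abs_le]; constructor <;> linarith
          · have e : (p * t⁻¹ * ((t ^ a)⁻¹ * y * t ^ a))⁻¹ * (p * ((t ^ (a + 1))⁻¹ * y * t ^ (a + 1))) = t := by
              rw [pow_succ]; group
            rw [e]; exact ht
        exact (e1.trans e2).trans e3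
      · -- expand the word
        apply word a (-(H t)) (H t) _ y hy p (by linarith) (by linarith)
        intro y hy p h3 h4
        exact ih y hy p (abs_le.2 ⟨h3, h4⟩)
    intro y hy p hp
    rw [abs_le] at hp
    rcases le_or_gt (-(H t - s * C)) (H p) with h1 | h1
    · exact good y hy p h1 hp.2
    · -- go up
      have hy' := hY y hy
      rw [abs_le] at hy'
      have e1 : Conn H B S p (p * t) := by
        apply conn_step
        · rw [abs_le]; constructor <;> linarith
        · rw [hH, abs_le]; constructor <;> linarith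
        · rw [inv_mul_cancel_left]; exact ht
      have e2 : Conn H B S (p * t) (p * t * ((t ^ (a + 1 + 1))⁻¹ * y * t ^ (a + 1 + 1))) := by
        apply word (a + 1) (-(H t - s * C)) (H t) good y hy
        · rw [hH]; linarith
        · rw [hH]; linarith
      have e3 : Conn H B S (p * t * ((t ^ (a + 1 + 1))⁻¹ * y * t ^ (a + 1 + 1)))
          (p * ((t ^ (a + 1))⁻¹ * y * t ^ (a + 1))) := by
        apply conn_step
        · rw [hH, hH, height_conj hH, abs_le]; constructor <;> linarith
        · rw [hH, height_conj hH, abs_le]; constructor <;> linarith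
        · have e : (p * t * ((t ^ (a + 1 + 1))⁻¹ * y * t ^ (a + 1 + 1)))⁻¹ *
              (p * ((t ^ (a + 1))⁻¹ * y * t ^ (a + 1))) = t⁻¹ := by
            rw [pow_succ (n := a + 1)]; group
          rw [e]; exact ht'
      exact (e1.trans e2).trans e3

end claim

end Q31VF
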