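import Mathlib
import Pool.Agent.Q31.VF.A
set_option autoImplicit false

/-! Openness of the set of characters with finitely generated kernel, along a segment. -/

namespace Q31VF

universe u
variable {N : Type u} [Group N]

/-- finite generation of a kernel from connectivity of a strip -/
theorem fg_of_conn {H : N → ℤ} (hH : ∀ x y, H (x * y) = H x + H y) {B : ℤ} {S : Set N} (hS : S.Finite)
    (hconn : ∀ g, H g = 0 → Conn H B S 1 g) (K : Subgroup N) (hK : ∀ g, g ∈ K ↔ H g = 0) : K.FG := by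
  classical
  -- representatives
  have hr : ∀ h : ℤ, ∃ r : N, (∃ x, H x = h) → H r = h := by
    intro h
    by_cases hx : ∃ x, H x = h
    · exact ⟨hx.choose, fun _ => hx.choose_spec⟩
    · exact ⟨1, fun h' => absurd h' hx⟩
  choose r0 hr0 using hr
  set r : ℤ → N := fun h => if h = 0 then 1 else r0 h with hrdef
  have hr1 : r 0 = 1 := by simp [hrdef]
  have hr2 : ∀ x, H (r (H x)) = H x := by
    intro x
    by_cases h : H x = 0
    · rw [h, hr1, map_one' hH]
    · simp only [hrdef, h, if_false]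
      exact hr0 _ ⟨x, rfl⟩
  set U : Set N := (fun z : ℤ × N => r z.1 * z.2 * (r (z.1 + H z.2))⁻¹) '' (Set.Icc (-B) B ×ˢ S) ∩ K with hU
  have hUf : U.Finite := (((Set.finite_Icc _ _).prod hS).image _).inter_of_left _
  have key : ∀ p, Conn H B S 1 p → p * (r (H p))⁻¹ ∈ Subgroup.closure U := by
    intro p hp
    induction hp with
    | refl =>
      rw [map_one' hH, hr1]
      simp
    | tail hpq hstep ih =>
      rename_i p q
      obtain ⟨h1, h2, h3⟩ := hstep
      have e : q * (r (H q))⁻¹ = (p * (r (H p))⁻¹) * (r (H p) * (p⁻¹ * q) * (r (H q))⁻¹) := by group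
      rw [e]
      refine Subgroup.mul_mem _ ih (Subgroup.subset_closure ⟨⟨(H p, p⁻¹ * q), ⟨?_, h3⟩, ?_⟩, ?_⟩)
      · exact abs_le.1 h1
      · have : H p + H (p⁻¹ * q) = H q := by rw [hH, map_inv' hH]; ring
        simp only [this]
      · show _ ∈ K
        rw [hK, hH, hH, hH, map_inv' hH, map_inv' hH, hr2, hr2]; ring
  rw [Subgroup.fg_iff]
  refine ⟨U, ?_, hUf⟩
  apply le_antisymm
  · rw [Subgroup.closure_le]
    exact Set.inter_subset_right
  · intro g hg
    have hg0 := (hK g).1 hg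
    have := key g (hconn g hg0)
    rwa [hg0, hr1, inv_one, mul_one] at this

theorem conn_neg {H : N → ℤ} {B : ℤ} {S : Set N} {p q : N} :
    Conn (fun x => - H x) B S p q → Conn H B S p q := by
  intro h
  have key : ∀ a b, Step (fun x => - H x) B S a b → Step H B S a b := by
    rintro a b ⟨h1, h2, h3⟩
    rw [abs_neg] at h1 h2
    exact ⟨h1, h2, h3⟩
  exact Relation.ReflTransGen.mono key _ _ h

theorem fg_kernel {H : N → ℤ} (hH : ∀ x y, H (x * y) = H x + H y) (t : N) (Y : Set N) (hYf : Y.Finite)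
    (C : ℤ) (s : ℕ) (hY : ∀ y ∈ Y, |H y| ≤ C) (hC0 : 0 ≤ C)
    (hw : ∀ y ∈ Y, ∃ l : List N, (∀ z ∈ l, z ∈ Y) ∧ l.length ≤ s ∧ l.prod = t⁻¹ * y * t)
    (hw' : ∀ y ∈ Y, ∃ l : List N, (∀ z ∈ l, z ∈ Y) ∧ l.length ≤ s ∧ l.prod = t * y * t⁻¹)
    (hT : 2 * (s * C) ≤ H t) (hCT : C < H t)
    (hgen : ∀ x : N, ∃ (l : List N) (k : ℤ), (∀ z ∈ l, z ∈ Y) ∧ x = l.prod * t ^ k)
    (K : Subgroup N) (hK : ∀ g, g ∈ K ↔ H g = 0) : K.FG := by
  set S : Set N := Y ∪ {t, t⁻¹} with hS
  have hSf : S.Finite := hYf.union (by simp)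
  have hYS : Y ⊆ S := Set.subset_union_left
  have ht : t ∈ S := Or.inr (Or.inl rfl)
  have ht' : t⁻¹ ∈ S := Or.inr (Or.inr rfl)
  set B := 2 * H t with hB
  have hT0 : 0 < H t := by linarith
  have c1 := claim (B := B) (S := S) hH t Y C s hY hC0 hw hT hCT.le le_rfl hYS ht ht'
  have hH' : ∀ x y, (fun x => - H x) (x * y) = (fun x => - H x) x + (fun x => - H x) y := by
    intro x y
    simp only [hH]; ring
  have hHt' : - H t⁻¹ = H t := by rw [map_inv' hH]; ring
  have c2 := claim (B := B) (S := S) hH' t⁻¹ Y C s (fun y hy => by rw [abs_neg]; exact hY y hy) hC0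
    (by
      intro y hy
      rw [inv_inv]
      exact hw' y hy)
    (by rw [hHt']; exact hT) (by rw [hHt']; exact hCT.le) (by rw [hHt']) hYS ht' (by rw [inv_inv]; exact ht)
  have c3 : ∀ (a : ℤ), ∀ y ∈ Y, ∀ p, |H p| ≤ H t → Conn H B S p (p * ((t ^ a)⁻¹ * y * t ^ a)) := by
    intro a y hy p hp
    obtain ⟨m, rfl | rfl⟩ := a.eq_nat_or_neg
    · rw [zpow_natCast]; exact c1 m y hy p hp
    · have h := c2 m y hy p (by rw [abs_neg, hHt']; exact hp)
      have e : (t ^ (-(m : ℤ)) : N) = t⁻¹ ^ m := by rw [zpow_neg, zpow_natCast, inv_pow]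
      rw [e]
      exact conn_neg h
  have conn_t : ∀ p, |H p| ≤ B → |H (p * t)| ≤ B → Conn H B S p (p * t) := fun p h1 h2 =>
    conn_step h1 h2 (by rw [inv_mul_cancel_left]; exact ht)
  have conn_t' : ∀ p, |H p| ≤ B → |H (p * t⁻¹)| ≤ B → Conn H B S p (p * t⁻¹) := fun p h1 h2 =>
    conn_step h1 h2 (by rw [inv_mul_cancel_left]; exact ht')
  have main : ∀ l : List N, (∀ z ∈ l, z ∈ Y) → ∃ a : ℤ, |H (l.prod * t ^ a)| ≤ H t ∧
      Conn H B S 1 (l.prod * t ^ a) := by
    intro l
    induction l using List.reverseRecOn with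
    | nil =>
      intro _
      refine ⟨0, ?_, ?_⟩
      · simp [map_one' hH, hT0.le]
      · simp only [List.prod_nil, zpow_zero, mul_one]
        exact Relation.ReflTransGen.refl
    | append_singleton l y ih =>
      intro hl
      obtain ⟨a, h1, h2⟩ := ih (fun z hz => hl z (by simp [hz]))
      have hy : y ∈ Y := hl y (by simp)
      have hy' := hY y hy
      have h3 := c3 a y hy _ h1
      have e : l.prod * t ^ a * ((t ^ a)⁻¹ * y * t ^ a) = (l ++ [y]).prod * t ^ a := by
        rw [List.prod_append, List.prod_singleton]; group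
      rw [e] at h3
      have h4 := h2.trans h3
      set p := (l ++ [y]).prod * t ^ a with hp
      have hHp : H p = H (l.prod * t ^ a) + H y := by
        rw [← e, hH, hH ((t ^ a)⁻¹ * y), hH (t ^ a)⁻¹, map_inv' hH]; ring
      rw [abs_le] at h1 hy'
      rcases le_or_gt |H p| (H t) with h5 | h5
      · exact ⟨a, h5, h4⟩
      · rcases lt_abs.1 h5 with h6 | h6
        · refine ⟨a - 1, ?_, ?_⟩
          · have e2 : (l ++ [y]).prod * t ^ (a - 1) = p * t⁻¹ := by
              rw [hp, zpow_sub, zpow_one, mul_assoc]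
            rw [e2, hH, map_inv' hH, abs_le]; constructor <;> linarith
          · have e2 : (l ++ [y]).prod * t ^ (a - 1) = p * t⁻¹ := by
              rw [hp, zpow_sub, zpow_one, mul_assoc]
            rw [e2]
            apply h4.trans (conn_t' p _ _)
            · rw [abs_le]; constructor <;> linarith
            · rw [hH, map_inv' hH, abs_le]; constructor <;> linarith
        · refine ⟨a + 1, ?_, ?_⟩
          · have e2 : (l ++ [y]).prod * t ^ (a + 1) = p * t := by
              rw [hp, zpow_add, zpow_one, mul_assoc]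
            rw [e2, hH, abs_le]; constructor <;> linarith
          · have e2 : (l ++ [y]).prod * t ^ (a + 1) = p * t := by
              rw [hp, zpow_add, zpow_one, mul_assoc]
            rw [e2]
            apply h4.trans (conn_t p _ _)
            · rw [abs_le]; constructor <;> linarith
            · rw [hH, abs_le]; constructor <;> linarith
  apply fg_of_conn hH hSf (B := B) _ K hK
  intro g hg
  obtain ⟨l, k, hl, rfl⟩ := hgen g
  obtain ⟨a, h1, h2⟩ := main l hl
  have h3 : H (l.prod * t ^ a) = (a - k) * H t := by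
    rw [hH, map_zpow' hH] at hg ⊢
    linear_combination hg
  rw [h3, abs_mul, abs_of_pos hT0] at h1
  have h4 : |a - k| ≤ 1 := by
    by_contra hc
    push Not at hc
    nlinarith
  have h5 : a - k = 0 ∨ a - k = 1 ∨ a - k = -1 := by
    rw [abs_le] at h4
    omega
  have hB1 : |H (l.prod * t ^ k)| ≤ B := by rw [hg, abs_zero]; linarith
  have hB2 : |H (l.prod * t ^ a)| ≤ B := by
    rw [h3, abs_mul, abs_of_pos hT0]; linarith
  rcases h5 with h5 | h5 | h5
  · have : a = k := by omega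
    rw [this] at h2; exact h2
  · have e : l.prod * t ^ k = l.prod * t ^ a * t⁻¹ := by
      have : k = a - 1 := by omega
      rw [this, zpow_sub, zpow_one, mul_assoc]
    rw [e] at hB1 ⊢
    exact h2.trans (conn_t' _ hB2 hB1)
  · have e : l.prod * t ^ k = l.prod * t ^ a * t := by
      have : k = a + 1 := by omega
      rw [this, zpow_add, zpow_one, mul_assoc]
    rw [e] at hB1 ⊢
    exact h2.trans (conn_t _ hB2 hB1)

/-- **Openness.** -/
theorem open_lemma (χ μ : N →* Multiplicative ℤ) (hχ : χ ≠ 1) (hfg : χ.ker.FG) :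
    ∃ M₀ : ℕ, ∀ M : ℕ, M₀ ≤ M → (χ ^ M * μ).ker.FG := by
  classical
  set h : N → ℤ := fun x => Multiplicative.toAdd (χ x) with hh
  have hadd : ∀ x y, h (x * y) = h x + h y := fun x y => by simp [hh]
  -- minimal positive value
  obtain ⟨t, ht0, htd⟩ : ∃ t, 0 < h t ∧ ∀ x, h t ∣ h x := by
    have hex : ∃ n : ℕ, 0 < n ∧ ∃ x, h x = n := by
      obtain ⟨x, hx⟩ : ∃ x, χ x ≠ 1 := by
        by_contra hc
        push Not at hc
        exact hχ (MonoidHom.ext hc)
      have hx' : h x ≠ 0 := fun h0 => hx (Multiplicative.toAdd.injective h0)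
      rcases lt_or_gt_of_ne hx' with h1 | h1
      · refine ⟨(h x⁻¹).toNat, ?_, x⁻¹, ?_⟩
        · rw [map_inv' hadd]; omega
        · rw [map_inv' hadd]; omega
      · exact ⟨(h x).toNat, by omega, x, by omega⟩
    obtain ⟨hn, t, ht⟩ := Nat.find_spec hex
    refine ⟨t, by rw [ht]; exact_mod_cast hn, ?_⟩
    intro x
    have hpos : 0 < h t := by rw [ht]; exact_mod_cast hn
    by_contra hnd
    have hr0 : h x % h t ≠ 0 := fun h0 => hnd (Int.dvd_of_emod_eq_zero h0)
    have hr1 := Int.emod_nonneg (h x) hpos.ne'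
    have hr2 := Int.emod_lt_of_pos (h x) hpos
    have hval : h (x * t ^ (-(h x / h t))) = h x % h t := by
      rw [hadd, map_zpow' hadd, Int.emod_def]; ring
    have hlt : (h x % h t).toNat < Nat.find hex := by
      rw [ht] at hr2 ⊢
      omega
    exact Nat.find_min hex hlt ⟨by omega, _, by rw [hval]; omega⟩
  obtain ⟨Y0, hY0, hY0f⟩ := (Subgroup.fg_iff _).1 hfg
  set Y : Set N := Y0 ∪ Y0⁻¹ with hYdef
  have hYf : Y.Finite := hY0f.union hY0f.inv
  have hlist : ∀ x, h x = 0 → ∃ l : List N, (∀ z ∈ l, z ∈ Y) ∧ l.prod = x := by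
    intro x hx
    have : x ∈ Subgroup.closure Y0 := by
      rw [hY0, MonoidHom.mem_ker]
      exact Multiplicative.toAdd.injective hx
    rw [← Subgroup.mem_toSubmonoid, Subgroup.closure_toSubmonoid] at this
    obtain ⟨l, h1, h2⟩ := Submonoid.exists_list_of_mem_closure this
    exact ⟨l, h1, h2⟩
  have hYker : ∀ y ∈ Y, h y = 0 := by
    have h1 : ∀ y ∈ Y0, h y = 0 := by
      intro y hy
      have : y ∈ χ.ker := by rw [← hY0]; exact Subgroup.subset_closure hy
      rw [MonoidHom.mem_ker] at this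
      simp [hh, this]
    rintro y (hy | hy)
    · exact h1 y hy
    · have := h1 _ (Set.mem_inv.1 hy)
      rw [map_inv' hadd] at this
      omega
  have hw1 : ∀ y : Y, ∃ l : List N, (∀ z ∈ l, z ∈ Y) ∧ l.prod = t⁻¹ * y * t := by
    intro y
    apply hlist
    rw [hadd, hadd, map_inv' hadd, hYker y y.2]; ring
  have hw2 : ∀ y : Y, ∃ l : List N, (∀ z ∈ l, z ∈ Y) ∧ l.prod = t * y * t⁻¹ := by
    intro y
    apply hlist
    rw [hadd, hadd, map_inv' hadd, hYker y y.2]; ring
  choose l1 hl1 hl1' using hw1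
  choose l2 hl2 hl2' using hw2
  have : Finite Y := hYf
  obtain ⟨s, hs⟩ : ∃ s : ℕ, ∀ y : Y, (l1 y).length ≤ s ∧ (l2 y).length ≤ s := by
    obtain ⟨s1, h1⟩ := (Set.finite_range (fun y : Y => (l1 y).length)).bddAbove
    obtain ⟨s2, h2⟩ := (Set.finite_range (fun y : Y => (l2 y).length)).bddAbove
    exact ⟨max s1 s2, fun y => ⟨(h1 ⟨y, rfl⟩).trans (le_max_left _ _), (h2 ⟨y, rfl⟩).trans (le_max_right _ _)⟩⟩
  set m : N → ℤ := fun x => Multiplicative.toAdd (μ x) with hm
  have hmadd : ∀ x y, m (x * y) = m x + m y := fun x y => by simp [hm]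
  obtain ⟨C, hC0, hC⟩ : ∃ C : ℤ, 0 ≤ C ∧ ∀ y ∈ Y, |m y| ≤ C := by
    obtain ⟨C, hC⟩ := (hYf.image (fun y => |m y|)).bddAbove
    exact ⟨max C 0, le_max_right _ _, fun y hy => (hC ⟨y, hy, rfl⟩).trans (le_max_left _ _)⟩
  refine ⟨(2 * (s * C) + C + 1 + |m t|).toNat, ?_⟩
  intro M hM
  set H : N → ℤ := fun x => M * h x + m x with hHdef
  have hHadd : ∀ x y, H (x * y) = H x + H y := fun x y => by
    simp only [hHdef, hadd, hmadd]; ring
  have hMC : 2 * (s * C) + C + 1 + |m t| ≤ M := by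
    have := Int.self_le_toNat (2 * (s * C) + C + 1 + |m t|)
    have h2 : ((2 * (s * C) + C + 1 + |m t|).toNat : ℤ) ≤ M := by exact_mod_cast hM
    linarith
  have hHt : 2 * (s * C) + C + 1 ≤ H t := by
    have h1 : (M : ℤ) * 1 ≤ M * h t := mul_le_mul_of_nonneg_left (by omega) (by positivity)
    have h2 := neg_abs_le (m t)
    simp only [hHdef]
    linarith
  have hsC : (0 : ℤ) ≤ s * C := by positivity
  apply fg_kernel hHadd t Y hYf C s
  · intro y hy
    simp only [hHdef, hYker y hy, mul_zero, zero_add]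
    exact hC y hy
  · exact hC0
  · intro y hy
    exact ⟨l1 ⟨y, hy⟩, hl1 _, (hs _).1, hl1' _⟩
  · intro y hy
    exact ⟨l2 ⟨y, hy⟩, hl2 _, (hs _).2, hl2' _⟩
  · linarith
  · linarith
  · intro x
    obtain ⟨k, hk⟩ := htd x
    obtain ⟨l, h1, h2⟩ := hlist (x * t ^ (-k)) (by rw [hadd, map_zpow' hadd, hk]; ring)
    refine ⟨l, k, h1, ?_⟩
    rw [h2, zpow_neg]; group
  · intro g
    rw [MonoidHom.mem_ker]
    constructor
    · intro hg
      have := congrArg Multiplicative.toAdd hg
      simpa [hHdef, hh, hm] using this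
    · intro hg
      apply Multiplicative.toAdd.injective
      simpa [hHdef, hh, hm] using hg

end Q31VF
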