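import Mathlib
import Pool.Agent.Q31.VF.B
set_option autoImplicit false

/-! Normal subgroups of finite index with adapted fibered characters. -/

namespace Q31VF

universe u

/-- A group is fibered if it has a nontrivial homomorphism to `ℤ` with finitely generated kernel. -/
def Fibered (H : Type u) [Group H] : Prop := ∃ χ : H →* Multiplicative ℤ, χ ≠ 1 ∧ χ.ker.FG

/-- A group is virtually fibered if it has a fibered subgroup of finite index. -/
def VirtuallyFibered (G : Type u) [Group G] : Prop := ∃ K : Subgroup G, K.FiniteIndex ∧ Fibered K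

/-- `H` is a virtual retract of `G`. -/
def IsVirtualRetract {G : Type u} [Group G] (H : Subgroup G) : Prop :=
  ∃ K : Subgroup G, K.FiniteIndex ∧ ∃ h : H ≤ K, ∃ ρ : K →* H, ∀ x : H, ρ (Subgroup.inclusion h x) = x

theorem exists_min {A : Type u} [Group A] (h : A → ℤ) (hadd : ∀ x y, h (x * y) = h x + h y)
    (hx : ∃ x, h x ≠ 0) : ∃ t, 0 < h t ∧ ∀ x, h t ∣ h x := by
  classical
  have hex : ∃ n : ℕ, 0 < n ∧ ∃ x, h x = n := by
    obtain ⟨x, hx'⟩ := hx
    rcases lt_or_gt_of_ne hx' with h1 | h1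
    · refine ⟨(h x⁻¹).toNat, ?_, x⁻¹, ?_⟩
      · rw [map_inv' hadd]; omega
      · rw [map_inv' hadd]; omega
    · exact ⟨(h x).toNat, by omega, x, by omega⟩
  obtain ⟨hn, t, ht⟩ := Nat.find_spec hex
  refine ⟨t, by rw [ht]; exact_mod_cast hn, ?_⟩
  intro x
  have hpos : 0 < h t := by rw [ht]; exact_mod_cast hn
  by_contra hnd
  have hr0 : h x % h t ≠ 0 := fun h0 => hnd (Int.dvd_of_emod_eq_zero h0)
  have hr1 := Int.emod_nonneg (h x) hpos.ne'
  have hr2 := Int.emod_lt_of_pos (h x) hpos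
  have hval : h (x * t ^ (-(h x / h t))) = h x % h t := by
    rw [hadd, map_zpow' hadd, Int.emod_def]; ring
  have hlt : (h x % h t).toNat < Nat.find hex := by
    rw [ht] at hr2 ⊢
    omega
  exact Nat.find_min hex hlt ⟨by omega, _, by rw [hval]; omega⟩

/-- a fibered group is finitely generated -/
theorem fg_of_fibered {A : Type u} [Group A] (h : Fibered A) : Group.FG A := by
  obtain ⟨χ, hχ, hfg⟩ := h
  set H : A → ℤ := fun x => Multiplicative.toAdd (χ x) with hH
  have hadd : ∀ x y, H (x * y) = H x + H y := fun x y => by simp [hH]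
  obtain ⟨t, ht, htd⟩ := exists_min H hadd (by
    by_contra hc
    push Not at hc
    exact hχ (MonoidHom.ext fun x => Multiplicative.toAdd.injective (hc x)))
  rw [Group.fg_def]
  have h1 : (χ.ker ⊔ Subgroup.zpowers t).FG := by
    refine Subgroup.FG.sup hfg ?_
    rw [Subgroup.zpowers_eq_closure, Subgroup.fg_iff]
    exact ⟨{t}, rfl, Set.finite_singleton t⟩
  have h2 : χ.ker ⊔ Subgroup.zpowers t = ⊤ := by
    rw [eq_top_iff]
    rintro x -
    obtain ⟨k, hk⟩ := htd x
    have e : x = (x * t ^ (-k)) * t ^ k := by rw [zpow_neg]; group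
    have h3 : x * t ^ (-k) ∈ χ.ker := by
      rw [MonoidHom.mem_ker]
      apply Multiplicative.toAdd.injective
      have h4 : H (x * t ^ (-k)) = 0 := by
        rw [hadd, map_zpow' hadd, hk]; ring
      exact h4
    have h5 : t ^ k ∈ Subgroup.zpowers t := ⟨k, rfl⟩
    rw [e]
    exact Subgroup.mul_mem _ (Subgroup.mem_sup_left h3) (Subgroup.mem_sup_right h5)
  rwa [h2] at h1

theorem fg_of_vf {G : Type u} [Group G] (h : VirtuallyFibered G) : Group.FG G := by
  obtain ⟨K, hK, hF⟩ := h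
  have h1 := fg_of_fibered hF
  have h2 : K.FG := (Group.fg_iff_subgroup_fg K).1 h1
  -- finite set of coset representatives
  have hfin : Finite (G ⧸ K) := Subgroup.finite_quotient_of_finiteIndex
  rw [Group.fg_def]
  have h3 : (K ⊔ Subgroup.closure (Set.range (fun q : G ⧸ K => q.out))).FG := by
    refine Subgroup.FG.sup h2 ?_
    rw [Subgroup.fg_iff]
    exact ⟨_, rfl, Set.finite_range _⟩
  have h4 : K ⊔ Subgroup.closure (Set.range (fun q : G ⧸ K => q.out)) = ⊤ := by
    rw [eq_top_iff]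
    rintro x -
    have e : x = (QuotientGroup.mk x : G ⧸ K).out * ((QuotientGroup.mk x : G ⧸ K).out⁻¹ * x) := by group
    rw [e]
    refine Subgroup.mul_mem _ (Subgroup.mem_sup_right (Subgroup.subset_closure ⟨_, rfl⟩))
      (Subgroup.mem_sup_left ?_)
    rw [← QuotientGroup.eq]
    exact Quotient.out_eq' _
  rwa [h4] at h3

/-- kernels of restrictions to subgroups of finite index -/
theorem fg_restrict {A C : Type*} [Group A] [Group C] (f : A →* C) (hf : f.ker.FG) (T : Subgroup A)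
    [T.FiniteIndex] : (f.comp T.subtype).ker.FG := by
  have h1 : Group.FG f.ker := (Group.fg_iff_subgroup_fg _).2 hf
  have h2 : Group.FG (T.subgroupOf f.ker) := inferInstance
  rw [← Group.fg_iff_subgroup_fg]
  let φ : T.subgroupOf f.ker →* (f.comp T.subtype).ker :=
    { toFun := fun x => ⟨⟨((x : f.ker) : A), x.2⟩, (x : f.ker).2⟩
      map_one' := rfl
      map_mul' := fun _ _ => rfl }
  have hφ : Function.Surjective φ := by
    rintro ⟨⟨x, hx⟩, hx2⟩
    exact ⟨⟨⟨x, hx2⟩, hx⟩, rfl⟩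
  exact Group.fg_of_surjective hφ

theorem fg_equiv {A B C : Type*} [Group A] [Group B] [Group C] (f : A →* C) (hf : f.ker.FG)
    (e : B ≃* A) : (f.comp e.toMonoidHom).ker.FG := by
  have h1 : Group.FG f.ker := (Group.fg_iff_subgroup_fg _).2 hf
  rw [← Group.fg_iff_subgroup_fg]
  let φ : f.ker →* (f.comp e.toMonoidHom).ker :=
    { toFun := fun x => ⟨e.symm (x : A), by
        rw [MonoidHom.mem_ker]
        show f (e (e.symm (x : A))) = 1
        rw [e.apply_symm_apply]; exact x.2⟩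
      map_one' := Subtype.ext (map_one e.symm)
      map_mul' := fun x y => Subtype.ext (map_mul e.symm (x : A) (y : A)) }
  have hφ : Function.Surjective φ := by
    rintro ⟨x, hx⟩
    exact ⟨⟨e x, hx⟩, Subtype.ext (e.symm_apply_apply x)⟩
  exact Group.fg_of_surjective hφ

theorem step1 {G G₀ : Type u} [Group G] [Group G₀] (i : G₀ →* G) (hi : Function.Injective i) (c : G₀)
    (hc : ∀ m : ℤ, m ≠ 0 → c ^ m ≠ 1) (hcf : (Subgroup.zpowers c).FiniteIndex)
    (hF : VirtuallyFibered G) (hR : IsVirtualRetract i.range) :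
    ∃ N₀ : Subgroup G, N₀.Normal ∧ N₀.FiniteIndex ∧ (∀ h, i h ∈ N₀ → h ∈ Subgroup.zpowers c) ∧
      ∃ χ lam : N₀ →* Multiplicative ℤ, χ ≠ 1 ∧ χ.ker.FG ∧
        ∀ (h : G₀) (hh : i h ∈ N₀), h ≠ 1 → lam ⟨i h, hh⟩ ≠ 1 := by
  obtain ⟨K₁, hK₁, φ₁, hφ₁, hφ₁'⟩ := hF
  obtain ⟨K₂, hK₂, hle, ρ, hρ⟩ := hR
  let r : K₂ →* G₀ := (i.ofInjective hi).symm.toMonoidHom.comp ρ
  have hr : ∀ (h : G₀) (hh : i h ∈ K₂), r ⟨i h, hh⟩ = h := by
    intro h hh
    have e : ρ ⟨i h, hh⟩ = i.ofInjective hi h := hρ ⟨i h, ⟨h, rfl⟩⟩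
    show (i.ofInjective hi).symm (ρ ⟨i h, hh⟩) = h
    rw [e, MulEquiv.symm_apply_apply]
  set K₃ : Subgroup K₂ := (Subgroup.zpowers c).comap r with hK₃
  have hK₃fi : K₃.FiniteIndex := by
    constructor
    rw [hK₃, Subgroup.index_comap]
    exact (inferInstance : ((Subgroup.zpowers c).subgroupOf r.range).FiniteIndex).index_ne_zero
  set K₃' : Subgroup G := K₃.map K₂.subtype with hK₃'
  have hK₃'fi : K₃'.FiniteIndex := by
    constructor
    rw [hK₃', Subgroup.index_map_subtype]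
    exact mul_ne_zero hK₃fi.index_ne_zero hK₂.index_ne_zero
  have hK₁₃ : (K₁ ⊓ K₃').FiniteIndex := inferInstance
  set N₀ := (K₁ ⊓ K₃').normalCore with hN₀
  have hN₀fi : N₀.FiniteIndex := inferInstance
  have hN₁ : N₀ ≤ K₁ := (Subgroup.normalCore_le _).trans inf_le_left
  have hN₃ : N₀ ≤ K₃' := (Subgroup.normalCore_le _).trans inf_le_right
  have hN₂ : N₀ ≤ K₂ := hN₃.trans (by rintro _ ⟨x, -, rfl⟩; exact x.2)
  have hNr : ∀ x : N₀, r (Subgroup.inclusion hN₂ x) ∈ Subgroup.zpowers c := by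
    rintro ⟨x, hx⟩
    obtain ⟨y, hy, rfl⟩ := hN₃ hx
    exact hy
  refine ⟨N₀, inferInstance, hN₀fi, ?_, ?_⟩
  · intro h hh
    have := hNr ⟨i h, hh⟩
    have e : Subgroup.inclusion hN₂ ⟨i h, hh⟩ = ⟨i h, hN₂ hh⟩ := rfl
    rwa [e, hr] at this
  · -- the exponent homomorphism
    have hz : Function.Injective (zpowersHom G₀ c) := by
      rw [injective_iff_map_eq_one]
      intro z hz
      by_contra hne
      exact hc (Multiplicative.toAdd z) (fun h0 => hne (Multiplicative.toAdd.injective h0)) hz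
    have hzr : (zpowersHom G₀ c).range = Subgroup.zpowers c := by
      ext x
      rw [MonoidHom.mem_range, Subgroup.mem_zpowers_iff]
      constructor
      · rintro ⟨z, rfl⟩; exact ⟨Multiplicative.toAdd z, rfl⟩
      · rintro ⟨k, rfl⟩; exact ⟨Multiplicative.ofAdd k, rfl⟩
    let L : (zpowersHom G₀ c).range →* Multiplicative ℤ :=
      ((zpowersHom G₀ c).ofInjective hz).symm.toMonoidHom
    let r' : N₀ →* (zpowersHom G₀ c).range :=
      (r.comp (Subgroup.inclusion hN₂)).codRestrict _ (fun x => by rw [hzr]; exact hNr x)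
    refine ⟨φ₁.comp (Subgroup.inclusion hN₁), L.comp r', ?_, ?_, ?_⟩
    · intro h1
      apply hφ₁
      ext x
      have hTn : (N₀.subgroupOf K₁).Normal := inferInstance
      have hTf : (N₀.subgroupOf K₁).FiniteIndex := inferInstance
      have hx : x ^ (N₀.subgroupOf K₁).index ∈ N₀.subgroupOf K₁ := Subgroup.pow_index_mem _ _
      rw [Subgroup.mem_subgroupOf] at hx
      have h2 : φ₁ (x ^ (N₀.subgroupOf K₁).index) = 1 := DFunLike.congr_fun h1 ⟨_, hx⟩
      rw [map_pow] at h2
      have h3 := congrArg Multiplicative.toAdd h2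
      rw [toAdd_pow, toAdd_one] at h3
      rcases smul_eq_zero.1 h3 with h4 | h4
      · exact absurd h4 hTf.index_ne_zero
      · rw [h4]; rfl
    · have h1 := fg_restrict φ₁ hφ₁' (N₀.subgroupOf K₁)
      exact fg_equiv _ h1 (Subgroup.subgroupOfEquivOfLe hN₁).symm
    · intro h hh hne h1
      apply hne
      have h2 : r' ⟨i h, hh⟩ = 1 := by
        have := ((zpowersHom G₀ c).ofInjective hz).symm.injective (h1.trans (map_one _).symm)
        exact this
      have h3 : r (Subgroup.inclusion hN₂ ⟨i h, hh⟩) = 1 := congrArg Subtype.val h2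
      have e : Subgroup.inclusion hN₂ ⟨i h, hh⟩ = ⟨i h, hN₂ hh⟩ := rfl
      rwa [e, hr] at h3

end Q31VF
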