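import Mathlib
import Pool.Agent.Q31.VF.C
set_option autoImplicit false

/-! Generic fibered characters and the choice of the normal subgroups. -/

namespace Q31VF

universe u

open Polynomial in
/-- finitely many nonzero integer polynomials have a common non-root -/
theorem exists_nonroot {Q : Type*} [Finite Q] (p : Q → ℤ[X]) (hp : ∀ q, p q ≠ 0) :
    ∃ b : ℤ, ∀ q, (p q).eval b ≠ 0 := by
  classical
  have := Fintype.ofFinite Q
  have h1 : ∏ q, p q ≠ 0 := Finset.prod_ne_zero_iff.2 fun q _ => hp q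
  by_contra hc
  push Not at hc
  apply h1
  apply Polynomial.funext
  intro b
  obtain ⟨q, hq⟩ := hc b
  rw [eval_prod, eval_zero]
  exact Finset.prod_eq_zero (Finset.mem_univ q) hq

open Polynomial in
/-- coefficients making finitely many combinations nonzero -/
theorem exists_coeffs {Q : Type*} [Fintype Q] (w : Q → Q → ℤ) (hw : ∀ q, ∃ q', w q q' ≠ 0) :
    ∃ ε : Q → ℤ, ∀ q, ∑ q', ε q' * w q q' ≠ 0 := by
  classical
  let e := Fintype.equivFin Q
  obtain ⟨b, hb⟩ := exists_nonroot (fun q => ∑ q', C (w q q') * X ^ (e q' : ℕ)) (by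
    intro q h
    obtain ⟨q', hq'⟩ := hw q
    apply hq'
    have h1 := congrArg (fun p => p.coeff (e q' : ℕ)) h
    simp only [finsetSum_coeff, coeff_C_mul, coeff_X_pow, coeff_zero, mul_ite, mul_one, mul_zero] at h1
    rw [Finset.sum_eq_single q'] at h1
    · simpa using h1
    · intro q'' _ hne
      rw [if_neg]
      intro h2
      exact hne (e.injective (Fin.ext h2)).symm
    · intro h2; exact absurd (Finset.mem_univ _) h2)
  refine ⟨fun q' => b ^ (e q' : ℕ), ?_⟩
  intro q h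
  apply hb q
  rw [eval_finsetSum]
  simp only [eval_mul, eval_C, eval_pow, eval_X]
  rw [← h]
  apply Finset.sum_congr rfl
  intro q' _
  ring

section step2
variable {G : Type u} [Group G] (N : Subgroup G) [N.Normal] [N.FiniteIndex]

/-- conjugation of characters -/
def cjc (lam : N →* Multiplicative ℤ) (g : G) : N →* Multiplicative ℤ :=
  lam.comp (MulAut.conjNormal g⁻¹ : MulAut N).toMonoidHom

theorem cjc_apply (lam : N →* Multiplicative ℤ) (g : G) (x : N) :
    cjc N lam g x = lam (MulAut.conjNormal g⁻¹ x) := rfl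

/-- a character is invariant under conjugation in its domain -/
theorem lam_conj (lam : N →* Multiplicative ℤ) (n x : N) :
    lam (MulAut.conjNormal (n : G) x) = lam x := by
  have e : MulAut.conjNormal (n : G) x = n * x * n⁻¹ := by
    apply Subtype.ext
    rw [MulAut.conjNormal_apply]; rfl
  rw [e, map_mul, map_mul, map_inv, mul_comm (lam n), mul_inv_cancel_right]

theorem step2 (χ lam : N →* Multiplicative ℤ) (hχ : χ ≠ 1) (hfg : χ.ker.FG) (x₀ : N)
    (hx₀ : lam x₀ ≠ 1) : ∃ f : N →* Multiplicative ℤ, f.ker.FG ∧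
      ∀ g : G, f (MulAut.conjNormal g x₀) ≠ 1 := by
  classical
  have hfin : Finite (G ⧸ N) := Subgroup.finite_quotient_of_finiteIndex
  have := Fintype.ofFinite (G ⧸ N)
  let w : (G ⧸ N) → (G ⧸ N) → ℤ := fun q q' =>
    Multiplicative.toAdd (cjc N lam q'.out (MulAut.conjNormal q.out x₀))
  have hw : ∀ q, w q q = Multiplicative.toAdd (lam x₀) := by
    intro q
    simp only [w, cjc_apply]
    rw [← MulAut.mul_apply, ← map_mul, inv_mul_cancel, map_one, MulAut.one_apply]
  obtain ⟨ε, hε⟩ := exists_coeffs w (fun q => ⟨q, by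
    rw [hw]
    intro h
    exact hx₀ (Multiplicative.toAdd.injective h)⟩)
  let μ : N →* Multiplicative ℤ := ∏ q', (cjc N lam q'.out) ^ (ε q')
  have hμ : ∀ x, Multiplicative.toAdd (μ x) = ∑ q', ε q' * Multiplicative.toAdd (cjc N lam q'.out x) := by
    intro x
    simp only [μ, MonoidHom.finsetProd_apply, toAdd_prod]
    apply Finset.sum_congr rfl
    intro q' _
    show Multiplicative.toAdd ((cjc N lam q'.out x) ^ (ε q')) = _
    rw [toAdd_zpow, smul_eq_mul]
  obtain ⟨M₀, hM₀⟩ := open_lemma χ μ hχ hfg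
  obtain ⟨B, hB⟩ := (Set.finite_range (fun q : G ⧸ N =>
    |Multiplicative.toAdd (μ (MulAut.conjNormal q.out x₀))|)).bddAbove
  set M := max M₀ (B.toNat + 1) with hM
  have hBM : B < M := by
    have h1 : B.toNat + 1 ≤ M := le_max_right _ _
    have h2 := Int.self_le_toNat B
    have h3 : ((B.toNat : ℤ) + 1) ≤ M := by exact_mod_cast h1
    linarith
  refine ⟨χ ^ M * μ, hM₀ M (le_max_left _ _), ?_⟩
  intro g hg
  -- reduce to the representative
  set q : G ⧸ N := QuotientGroup.mk g with hq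
  have hqn : q.out⁻¹ * g ∈ N := by
    rw [← QuotientGroup.eq]; exact Quotient.out_eq' _
  have key : ∀ f : N →* Multiplicative ℤ, f (MulAut.conjNormal g x₀) = f (MulAut.conjNormal q.out x₀) := by
    intro f
    have e : g = q.out * (q.out⁻¹ * g) := by group
    have e2 : MulAut.conjNormal g x₀ =
        MulAut.conjNormal q.out (MulAut.conjNormal (q.out⁻¹ * g) x₀) := by
      conv_lhs => rw [e, map_mul, MulAut.mul_apply]
    rw [e2]
    have h1 := lam_conj N (f.comp (MulAut.conjNormal q.out : MulAut N).toMonoidHom) ⟨_, hqn⟩ x₀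
    exact h1
  rw [key] at hg
  have h1 : (M : ℤ) * Multiplicative.toAdd (χ (MulAut.conjNormal q.out x₀)) +
      Multiplicative.toAdd (μ (MulAut.conjNormal q.out x₀)) = 0 := by
    have := congrArg Multiplicative.toAdd hg
    simpa using this
  have h2 : Multiplicative.toAdd (μ (MulAut.conjNormal q.out x₀)) ≠ 0 := by
    rw [hμ]; exact hε q
  have h3 : |Multiplicative.toAdd (μ (MulAut.conjNormal q.out x₀))| ≤ B := hB ⟨q, rfl⟩
  by_cases h4 : Multiplicative.toAdd (χ (MulAut.conjNormal q.out x₀)) = 0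
  · rw [h4, mul_zero, zero_add] at h1
    exact h2 h1
  · have h5 : (1 : ℤ) ≤ |Multiplicative.toAdd (χ (MulAut.conjNormal q.out x₀))| := Int.one_le_abs h4
    have h6 : |(M : ℤ) * Multiplicative.toAdd (χ (MulAut.conjNormal q.out x₀))| ≤ B := by
      have : (M : ℤ) * Multiplicative.toAdd (χ (MulAut.conjNormal q.out x₀)) =
          - Multiplicative.toAdd (μ (MulAut.conjNormal q.out x₀)) := by linarith
      rw [this, abs_neg]; exact h3
    rw [abs_mul, Nat.abs_cast] at h6
    nlinarith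

/-- the subgroup on which all characters are divisible by `n` -/
def divSub (n : ℤ) : Subgroup N where
  carrier := {x | ∀ ψ : N →* Multiplicative ℤ, n ∣ Multiplicative.toAdd (ψ x)}
  one_mem' := fun ψ => by simp
  mul_mem' := fun ha hb ψ => by
    rw [map_mul, toAdd_mul]; exact dvd_add (ha ψ) (hb ψ)
  inv_mem' := fun ha ψ => by
    rw [map_inv, toAdd_inv]; exact (dvd_neg).2 (ha ψ)

omit [N.FiniteIndex] in
theorem divSub_fi (n : ℤ) (hn : n ≠ 0) [Group.FG N] : (divSub N n).FiniteIndex := by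
  have hnorm : (divSub N n).Normal := by
    constructor
    intro x hx g ψ
    have := hx (ψ.comp (MulAut.conj g).toMonoidHom)
    exact this
  have hcomm : ∀ a b : N ⧸ divSub N n, a * b = b * a := by
    intro a b
    obtain ⟨x, rfl⟩ := QuotientGroup.mk'_surjective _ a
    obtain ⟨y, rfl⟩ := QuotientGroup.mk'_surjective _ b
    rw [← map_mul, ← map_mul]
    apply QuotientGroup.eq.2
    intro ψ
    have : ψ ((x * y)⁻¹ * (y * x)) = 1 := by
      rw [map_mul, map_inv, map_mul, map_mul, mul_comm (ψ x), inv_mul_cancel]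
    rw [this]; simp
  let inst : CommGroup (N ⧸ divSub N n) :=
    { (inferInstance : Group (N ⧸ divSub N n)) with mul_comm := hcomm }
  have : Finite (N ⧸ divSub N n) := by
    apply @CommGroup.finite_of_fg_isMulTorsion _ inst (inferInstance : Group.FG (N ⧸ divSub N n))
    intro x
    obtain ⟨a, rfl⟩ := QuotientGroup.mk'_surjective (divSub N n) x
    rw [isOfFinOrder_iff_zpow_eq_one]
    refine ⟨n, hn, ?_⟩
    rw [← map_zpow]
    apply (QuotientGroup.eq_one_iff _).2
    intro ψ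
    rw [map_zpow, toAdd_zpow]
    exact Dvd.intro _ rfl
  exact Subgroup.finiteIndex_of_finite_quotient

end step2

theorem latt {G G₀ : Type u} [Group G] [Group G₀] (i : G₀ →* G) (hi : Function.Injective i) (c : G₀)
    (hc : ∀ m : ℤ, m ≠ 0 → c ^ m ≠ 1) (hcf : (Subgroup.zpowers c).FiniteIndex)
    (hF : VirtuallyFibered G) (hR : IsVirtualRetract i.range) :
    ∃ m₁ : ℕ, 0 < m₁ ∧ ∀ m : ℕ, 0 < m → m₁ ∣ m → ∃ N : Subgroup G, N.Normal ∧ N.FiniteIndex ∧
      (∀ h, i h ∈ N ↔ h ∈ Subgroup.zpowers (c ^ m)) ∧ ∃ f : N →* Multiplicative ℤ, f.ker.FG ∧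
        ∀ (g : G) (x : N), (x : G) = g⁻¹ * i (c ^ m) * g → f x ≠ 1 := by
  classical
  have hGfg : Group.FG G := fg_of_vf hF
  obtain ⟨N₀, hN, hNf, hNc, χ, lam, hχ, hχfg, hlam⟩ := step1 i hi c hc hcf hF hR
  -- the least power of `c` in `N₀`
  have hex : ∃ k : ℕ, 0 < k ∧ i (c ^ k) ∈ N₀ := by
    refine ⟨N₀.index, Nat.pos_of_ne_zero hNf.index_ne_zero, ?_⟩
    rw [map_pow]
    exact Subgroup.pow_index_mem _ _
  set k₁ := Nat.find hex with hk₁
  obtain ⟨hk₁pos, hk₁mem⟩ := Nat.find_spec hex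
  rw [← hk₁] at hk₁pos hk₁mem
  have hdvd : ∀ j : ℤ, i (c ^ j) ∈ N₀ → (k₁ : ℤ) ∣ j := by
    intro j hj
    by_contra hnd
    have hr0 : j % k₁ ≠ 0 := fun h0 => hnd (Int.dvd_of_emod_eq_zero h0)
    have hpos : (0 : ℤ) < k₁ := by exact_mod_cast hk₁pos
    have hr1 := Int.emod_nonneg j hpos.ne'
    have hr2 := Int.emod_lt_of_pos j hpos
    have hmem : i (c ^ (j % k₁)) ∈ N₀ := by
      have e : c ^ (j % k₁) = c ^ j * ((c ^ k₁) ^ (j / k₁))⁻¹ := by
        rw [Int.emod_def, zpow_sub, zpow_mul, zpow_natCast]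
      have e2 : i (c ^ j * ((c ^ k₁) ^ (j / k₁))⁻¹) = i (c ^ j) * (i (c ^ k₁) ^ (j / k₁))⁻¹ := by
        rw [map_mul, map_inv, map_zpow i (c ^ k₁)]
      rw [e, e2]
      exact N₀.mul_mem hj (N₀.inv_mem (N₀.zpow_mem hk₁mem _))
    have hlt : (j % k₁).toNat < Nat.find hex := by rw [← hk₁]; omega
    refine Nat.find_min hex hlt ⟨by omega, ?_⟩
    have e : c ^ (j % k₁).toNat = c ^ (j % k₁) := by
      rw [← zpow_natCast, Int.toNat_of_nonneg hr1]
    rw [e]; exact hmem
  set x₀ : N₀ := ⟨i (c ^ k₁), hk₁mem⟩ with hx₀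
  have hck : ∀ m : ℕ, 0 < m → c ^ m ≠ 1 := by
    intro m hm h
    exact hc m (by exact_mod_cast hm.ne') (by rw [zpow_natCast]; exact h)
  have hlamx : lam x₀ ≠ 1 := hlam _ hk₁mem (hck _ hk₁pos)
  obtain ⟨f₀, hf₀, hf₀'⟩ := step2 N₀ χ lam hχ hχfg x₀ hlamx
  obtain ⟨φ, hφ0, hφd⟩ := exists_min (A := N₀ →* Multiplicative ℤ) (fun ψ => Multiplicative.toAdd (ψ x₀))
    (fun a b => by simp) ⟨lam, fun h => hlamx (Multiplicative.toAdd.injective h)⟩
  set e : ℤ := Multiplicative.toAdd (φ x₀) with he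
  refine ⟨k₁, hk₁pos, ?_⟩
  rintro m hm ⟨t, rfl⟩
  have ht : 0 < t := by
    rcases Nat.eq_zero_or_pos t with h | h
    · subst h; simp at hm
    · exact h
  have ht0 : (t : ℤ) ≠ 0 := by exact_mod_cast ht.ne'
  have hNfg : Group.FG N₀ := inferInstance
  set T : Subgroup N₀ := divSub N₀ (e * t) with hT
  have hTfi : T.FiniteIndex := divSub_fi N₀ (e * t) (mul_ne_zero hφ0.ne' ht0)
  set N : Subgroup G := T.map N₀.subtype with hNdef
  let hTN : T ≃* N := T.equivMapOfInjective N₀.subtype Subtype.val_injective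
  have hTN' : ∀ z : T, ((hTN z : N) : G) = ((z : N₀) : G) := fun z =>
    T.coe_equivMapOfInjective_apply N₀.subtype Subtype.val_injective z
  have hle : N ≤ N₀ := by rintro _ ⟨x, -, rfl⟩; exact x.2
  have hmemN : ∀ x : N₀, (x : G) ∈ N ↔ x ∈ T := by
    intro x
    constructor
    · rintro ⟨y, hy, hxy⟩
      have : y = x := Subtype.ext hxy
      rwa [← this]
    · intro hx; exact ⟨x, hx, rfl⟩
  have hpow : ∀ j : ℤ, (i ((c ^ k₁) ^ j) : G) = ((x₀ ^ j : N₀) : G) := by
    intro j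
    rw [map_zpow, Subgroup.coe_zpow]
  have hmemT : ∀ j : ℤ, x₀ ^ j ∈ T ↔ (t : ℤ) ∣ j := by
    intro j
    constructor
    · intro h
      have h1 := h φ
      rw [map_zpow, toAdd_zpow, smul_eq_mul, ← he, mul_comm j] at h1
      exact (mul_dvd_mul_iff_left hφ0.ne').1 h1
    · rintro ⟨s, rfl⟩ ψ
      rw [map_zpow, toAdd_zpow, smul_eq_mul]
      obtain ⟨r, hr⟩ := hφd ψ
      rw [hr]
      exact ⟨s * r, by ring⟩
  refine ⟨N, ?_, ?_, ?_, ?_⟩
  · constructor
    rintro _ ⟨x, hx, rfl⟩ g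
    refine ⟨MulAut.conjNormal g x, ?_, MulAut.conjNormal_apply g x⟩
    intro ψ
    exact hx (ψ.comp (MulAut.conjNormal g : MulAut N₀).toMonoidHom)
  · constructor
    rw [hNdef, Subgroup.index_map_subtype]
    exact mul_ne_zero hTfi.index_ne_zero hNf.index_ne_zero
  · intro h
    constructor
    · intro hh
      have h0 := hle hh
      obtain ⟨j, rfl⟩ := Subgroup.mem_zpowers_iff.1 (hNc h h0)
      obtain ⟨j', rfl⟩ := hdvd j h0
      rw [zpow_mul, zpow_natCast, hpow, hmemN, hmemT] at hh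
      obtain ⟨s, rfl⟩ := hh
      rw [Subgroup.mem_zpowers_iff]
      refine ⟨s, ?_⟩
      rw [← zpow_natCast, ← zpow_mul]
      congr 1
      push_cast; ring
    · intro hh
      obtain ⟨s, rfl⟩ := Subgroup.mem_zpowers_iff.1 hh
      have e1 : (c ^ (k₁ * t)) ^ s = (c ^ k₁) ^ ((t : ℤ) * s) := by
        rw [pow_mul, zpow_mul, zpow_natCast]
      rw [e1, hpow, hmemN, hmemT]
      exact Dvd.intro _ rfl
  · refine ⟨(f₀.comp T.subtype).comp hTN.symm.toMonoidHom, fg_equiv _ (fg_restrict f₀ hf₀ T) hTN.symm, ?_⟩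
    intro g x hx hfx
    set y : N₀ := ((hTN.symm x : T) : N₀) with hy
    have hy2 : (y : G) = x := by
      have h1 : ((hTN (hTN.symm x) : N) : G) = x := by rw [hTN.apply_symm_apply]
      rw [hTN'] at h1
      exact h1
    have hfy : f₀ y = 1 := hfx
    have e1 : y = MulAut.conjNormal g⁻¹ (x₀ ^ t) := by
      apply Subtype.ext
      rw [MulAut.conjNormal_apply, hy2, hx, inv_inv]
      congr 2
      rw [pow_mul, map_pow, Subgroup.coe_pow]
    rw [e1, map_pow, map_pow] at hfy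
    have h2 := congrArg Multiplicative.toAdd hfy
    rw [toAdd_pow, toAdd_one] at h2
    rcases smul_eq_zero.1 h2 with h3 | h3
    · omega
    · exact hf₀' g⁻¹ (Multiplicative.toAdd.injective h3)

end Q31VF
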