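import Mathlib
import Pool.Agent.Q31.VF.D
import Pool.Agent.Q31.VA.E
set_option autoImplicit false

/-! Finite generation through actions, and the main construction. -/

namespace Q31VF
open Q31VA (RR sg ZZ PP0 nu₁ nu₂ nu₁_apply nu₂_apply nu_compat conj_eq cj wt EE sh fin_RR tau tau_apply
  tau_mul exists_smul fi_crit)

universe u

theorem fg_map {A B : Type*} [Group A] [Group B] (f : A →* B) {K : Subgroup A} (h : K.FG) :
    (K.map f).FG := by
  obtain ⟨S, hS, hSf⟩ := (Subgroup.fg_iff _).1 h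
  rw [Subgroup.fg_iff]
  refine ⟨f '' S, ?_, hSf.image _⟩
  rw [← hS, MonoidHom.map_closure]

/-- finite generation from a Bass-Serre type action -/
theorem bs {G : Type u} [Group G] (A B D : Subgroup G) (hDA : D ≤ A) (hDB : D ≤ B) (hgen : A ⊔ B = ⊤)
    (H : Subgroup G) (E : Set G) (hE : E.Finite)
    (hfin : ∀ g, ∃ h ∈ H, ∃ e ∈ E, ∃ x ∈ D, g = h * e * x)
    (hA : ∀ e : G, (H ⊓ A.map (MulAut.conj e).toMonoidHom).FG)
    (hB : ∀ e : G, (H ⊓ B.map (MulAut.conj e).toMonoidHom).FG) : H.FG := by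
  classical
  -- connecting elements
  have hex : ∀ (C : Subgroup G) (e e' : G), ∃ h ∈ H, (∃ k ∈ H, ∃ a ∈ C, ∃ x ∈ D, e * a = k * e' * x) →
      ∃ a ∈ C, ∃ x ∈ D, e * a = h * e' * x := by
    intro C e e'
    by_cases hk : ∃ k ∈ H, ∃ a ∈ C, ∃ x ∈ D, e * a = k * e' * x
    · obtain ⟨k, hk1, hk2⟩ := hk
      exact ⟨k, hk1, fun _ => hk2⟩
    · exact ⟨1, H.one_mem, fun h => absurd h hk⟩
  choose κ hκ1 hκ2 using hex
  set S : Set G := (fun p : G × G => κ A p.1 p.2) '' (E ×ˢ E) ∪ (fun p : G × G => κ B p.1 p.2) '' (E ×ˢ E)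
    with hS
  have hSf : S.Finite := ((hE.prod hE).image _).union ((hE.prod hE).image _)
  set H' : Subgroup G := ((⨆ e ∈ E, H ⊓ A.map (MulAut.conj e).toMonoidHom) ⊔
    (⨆ e ∈ E, H ⊓ B.map (MulAut.conj e).toMonoidHom)) ⊔ Subgroup.closure S with hH'
  have hfgH' : H'.FG := by
    refine Subgroup.FG.sup (Subgroup.FG.sup ?_ ?_) ?_
    · exact Subgroup.FG.biSup hE _ fun e _ => hA e
    · exact Subgroup.FG.biSup hE _ fun e _ => hB e
    · rw [Subgroup.fg_iff]; exact ⟨S, rfl, hSf⟩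
  have hle : H' ≤ H := by
    refine sup_le (sup_le ?_ ?_) ?_
    · exact iSup₂_le fun e _ => inf_le_left
    · exact iSup₂_le fun e _ => inf_le_left
    · rw [Subgroup.closure_le]
      rintro _ (⟨p, -, rfl⟩ | ⟨p, -, rfl⟩)
      · exact hκ1 _ _ _
      · exact hκ1 _ _ _
  have claim : ∀ (C : Subgroup G), (∀ e ∈ E, ∀ e' ∈ E, κ C e e' ∈ H') →
      (∀ e ∈ E, H ⊓ C.map (MulAut.conj e).toMonoidHom ≤ H') → D ≤ C →
      ∀ e ∈ E, ∀ e' ∈ E, ∀ h ∈ H, ∀ a ∈ C, ∀ x ∈ D, e * a = h * e' * x → h ∈ H' := by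
    intro C h1 h2 hDC e he e' he' h hh a ha x hx heq
    obtain ⟨a₀, ha₀, x₀, hx₀, heq₀⟩ := hκ2 C e e' ⟨h, hh, a, ha, x, hx, heq⟩
    have h3 : h * (κ C e e')⁻¹ ∈ H' := by
      apply h2 e he
      refine ⟨H.mul_mem hh (H.inv_mem (hκ1 _ _ _)), ⟨a * x⁻¹ * (x₀ * a₀⁻¹), ?_, ?_⟩⟩
      · exact C.mul_mem (C.mul_mem ha (C.inv_mem (hDC hx))) (C.mul_mem (hDC hx₀) (C.inv_mem ha₀))
      · have e1 : h = e * a * x⁻¹ * e'⁻¹ := by rw [heq]; group
        have e2 : κ C e e' = e * a₀ * x₀⁻¹ * e'⁻¹ := by rw [heq₀]; group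
        show e * (a * x⁻¹ * (x₀ * a₀⁻¹)) * e⁻¹ = _
        rw [e2, e1]; group
    have := H'.mul_mem h3 (h1 e he e' he')
    rwa [inv_mul_cancel_right] at this
  have hκA : ∀ e ∈ E, ∀ e' ∈ E, κ A e e' ∈ H' := fun e he e' he' =>
    Subgroup.mem_sup_right (Subgroup.subset_closure (Or.inl ⟨(e, e'), ⟨he, he'⟩, rfl⟩))
  have hκB : ∀ e ∈ E, ∀ e' ∈ E, κ B e e' ∈ H' := fun e he e' he' =>
    Subgroup.mem_sup_right (Subgroup.subset_closure (Or.inr ⟨(e, e'), ⟨he, he'⟩, rfl⟩))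
  have hA' : ∀ e ∈ E, H ⊓ A.map (MulAut.conj e).toMonoidHom ≤ H' := fun e he =>
    (le_iSup₂_of_le (f := fun e (_ : e ∈ E) => H ⊓ A.map (MulAut.conj e).toMonoidHom) e he le_rfl).trans
      (le_sup_left.trans le_sup_left)
  have hB' : ∀ e ∈ E, H ⊓ B.map (MulAut.conj e).toMonoidHom ≤ H' := fun e he =>
    (le_iSup₂_of_le (f := fun e (_ : e ∈ E) => H ⊓ B.map (MulAut.conj e).toMonoidHom) e he le_rfl).trans
      (le_sup_right.trans le_sup_left)
  have cA := claim A hκA hA' hDA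
  have cB := claim B hκB hB' hDB
  obtain ⟨_, -, e₀, he₀, -⟩ := hfin 1
  set X : Set G := {g | ∃ h ∈ H', ∃ e ∈ E, ∃ x ∈ D, g = h * e * x} with hX
  have step : ∀ C : Subgroup G, D ≤ C → (∀ e ∈ E, ∀ e' ∈ E, ∀ h ∈ H, ∀ a ∈ C, ∀ x ∈ D,
      e * a = h * e' * x → h ∈ H') → ∀ g ∈ X, ∀ a ∈ C, g * a ∈ X := by
    rintro C hDC hC g ⟨h, hh, e, he, x, hx, rfl⟩ a ha
    obtain ⟨k, hk, e', he', x', hx', heq⟩ := hfin (e * (x * a))
    have hk' := hC e he e' he' k hk (x * a) (C.mul_mem (hDC hx) ha) x' hx' heq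
    refine ⟨h * k, H'.mul_mem hh hk', e', he', x', hx', ?_⟩
    calc h * e * x * a = h * (e * (x * a)) := by group
      _ = h * (k * e' * x') := by rw [heq]
      _ = _ := by group
  have stA := step A hDA cA
  have stB := step B hDB cB
  have all : ∀ g, e₀ * g ∈ X := by
    intro g
    have hg : g ∈ Subgroup.closure ((A : Set G) ∪ B) := by
      rw [← Subgroup.sup_eq_closure, hgen]; trivial
    induction hg using Subgroup.closure_induction_right with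
    | one => exact ⟨1, H'.one_mem, e₀, he₀, 1, D.one_mem, by simp⟩
    | mul_right x _ s hs ih =>
      rw [← mul_assoc]
      rcases hs with hs | hs
      · exact stA _ ih _ hs
      · exact stB _ ih _ hs
    | mul_inv_cancel x _ s hs ih =>
      rw [← mul_assoc]
      rcases hs with hs | hs
      · exact stA _ ih _ (A.inv_mem hs)
      · exact stB _ ih _ (B.inv_mem hs)
  have heq : H = H' := by
    apply le_antisymm _ hle
    intro h hh
    obtain ⟨h', hh', e, he, x, hx, h1⟩ := all (e₀⁻¹ * h * e₀)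
    have h2 : e * x = h'⁻¹ * h * e₀ * 1 := by
      have h3 : e₀ * (e₀⁻¹ * h * e₀) = h * e₀ := by group
      rw [h3] at h1
      calc e * x = h'⁻¹ * (h' * e * x) := by group
        _ = _ := by rw [← h1]; group
    have h4 := cA e he e₀ he₀ _ (H.mul_mem (H.inv_mem (hle hh')) hh) x (hDA hx) 1 D.one_mem h2
    have := H'.mul_mem hh' h4
    rwa [mul_inv_cancel_left] at this
  rw [heq]
  exact hfgH'

/-- The main construction: two factors with compatible fibered characters. -/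
theorem mainF {G₀ G₁ G₂ P : Type u} [Group G₀] [Group G₁] [Group G₂] [Group P] (i₁ : G₀ →* G₁)
    (i₂ : G₀ →* G₂) (d : G₀)
    (N₁ : Subgroup G₁) (N₂ : Subgroup G₂) [N₁.Normal] [N₂.Normal] [N₁.FiniteIndex] [N₂.FiniteIndex]
    (hD₁ : ∀ h : G₀, i₁ h ∈ N₁ ↔ h ∈ Subgroup.zpowers d)
    (hD₂ : ∀ h : G₀, i₂ h ∈ N₂ ↔ h ∈ Subgroup.zpowers d)
    (f₁ : N₁ →* Multiplicative ℤ) (f₂ : N₂ →* Multiplicative ℤ) (hf₁ : f₁.ker.FG) (hf₂ : f₂.ker.FG)
    (hn₁ : ∀ (g : G₁) (x : N₁), (x : G₁) = g⁻¹ * i₁ d * g → f₁ x ≠ 1)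
    (hn₂ : ∀ (g : G₂) (x : N₂), (x : G₂) = g⁻¹ * i₂ d * g → f₂ x ≠ 1)
    (j₁ : G₁ →* P) (j₂ : G₂ →* P) (hj : j₁.comp i₁ = j₂.comp i₂) (hgen : j₁.range ⊔ j₂.range = ⊤)
    (huniv : ∀ (K : Type u) [Group K] (a : G₁ →* K) (b : G₂ →* K), a.comp i₁ = b.comp i₂ →
      ∃ ν : P →* K, ν.comp j₁ = a ∧ ν.comp j₂ = b) : VirtuallyFibered P := by
  classical
  have hDn : (Subgroup.zpowers d).Normal := by
    have : Subgroup.zpowers d = N₁.comap i₁ := by
      ext h; exact (hD₁ h).symm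
    rw [this]; infer_instance
  let J : Type u := PUnit
  let F₁ : J → (N₁ →* Multiplicative ℤ) := fun _ => f₁
  let F₂ : J → (N₂ →* Multiplicative ℤ) := fun _ => f₂
  have hR₁ : Finite (RR i₁ N₁) := fin_RR i₁ N₁
  have hR₂ : Finite (RR i₂ N₂) := fin_RR i₂ N₂
  have hP0 : Finite (PP0 d) := by
    have : (Subgroup.zpowers d).FiniteIndex := by
      have : Subgroup.zpowers d = N₁.comap i₁ := by
        ext h; exact (hD₁ h).symm
      rw [this]; exact Q31VA.fi_comap i₁ N₁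
    exact Subgroup.finite_quotient_of_finiteIndex
  set μ₁ := nu₁ i₁ i₂ d N₁ N₂ hD₁ hD₂ F₁ F₂ with hμ₁
  set μ₂ := nu₂ i₁ i₂ d N₁ N₂ hD₁ hD₂ F₁ F₂ with hμ₂
  obtain ⟨ν, hν₁, hν₂⟩ := huniv _ μ₁ μ₂ (by
    ext1 h
    exact nu_compat i₁ i₂ d N₁ N₂ hD₁ hD₂ F₁ F₂ h)
  have hν₁' : ∀ g, ν (j₁ g) = μ₁ g := fun g => DFunLike.congr_fun hν₁ g
  have hν₂' : ∀ g, ν (j₂ g) = μ₂ g := fun g => DFunLike.congr_fun hν₂ g
  have hW₂ : ∀ (j : J) (r : RR i₂ N₂), wt d i₂ N₂ hD₂ F₂ j r ≠ 0 := by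
    intro j r h
    exact hn₂ _ (cj d i₂ N₂ hD₂ (Q31VA.rho i₂ N₂ r)) rfl (Multiplicative.toAdd.injective h)
  have hW₁ : ∀ (j : J) (r : RR i₁ N₁), wt d i₁ N₁ hD₁ F₁ j r ≠ 0 := by
    intro j r h
    exact hn₁ _ (cj d i₁ N₁ hD₁ (Q31VA.rho i₁ N₁ r)) rfl (Multiplicative.toAdd.injective h)
  -- all permutations commute with the shifts
  have key₁ : ∀ g, μ₁ g ∈ EE (PP0 d × RR i₁ N₁) (J × RR i₂ N₂) := by
    rintro g q ⟨x, ⟨j, r⟩, q'⟩
    obtain ⟨x', n, h⟩ := exists_smul (tau i₁ _ N₁ hD₁) (tau_mul i₁ _ N₁ hD₁) g x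
    rw [tau_apply, tau_apply] at h
    simp only [Subgroup.coe_one, mul_one] at h
    simp only [sh]
    rw [nu₁_apply i₁ i₂ d N₁ N₂ hD₁ hD₂ F₁ F₂ h, nu₁_apply i₁ i₂ d N₁ N₂ hD₁ hD₂ F₁ F₂ h]
    congr 2
    ring
  have key₂ : ∀ g, μ₂ g ∈ EE (PP0 d × RR i₁ N₁) (J × RR i₂ N₂) := by
    rintro g q ⟨⟨p, s⟩, ⟨j, r⟩, q'⟩
    obtain ⟨⟨p', r'⟩, n, h⟩ := exists_smul (tau i₂ _ N₂ hD₂) (tau_mul i₂ _ N₂ hD₂) g (p, r)
    rw [tau_apply, tau_apply] at h
    simp only [Subgroup.coe_one, mul_one] at h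
    simp only [sh]
    rw [nu₂_apply i₁ i₂ d N₁ N₂ hD₁ hD₂ F₁ F₂ h, nu₂_apply i₁ i₂ d N₁ N₂ hD₁ hD₂ F₁ F₂ h]
    congr 2
    ring
  have keyP : ∀ g, ν g ∈ EE (PP0 d × RR i₁ N₁) (J × RR i₂ N₂) := by
    have h1 : j₁.range ⊔ j₂.range ≤ (EE (PP0 d × RR i₁ N₁) (J × RR i₂ N₂)).comap ν := by
      apply sup_le
      · rintro _ ⟨g, rfl⟩
        show ν (j₁ g) ∈ EE (PP0 d × RR i₁ N₁) (J × RR i₂ N₂)
        rw [hν₁']; exact key₁ g
      · rintro _ ⟨g, rfl⟩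
        show ν (j₂ g) ∈ EE (PP0 d × RR i₁ N₁) (J × RR i₂ N₂)
        rw [hν₂']; exact key₂ g
    rw [hgen] at h1
    exact fun g => h1 (Subgroup.mem_top g)
  -- stabilizers in the factors
  have st₁ : ∀ z : ZZ i₁ i₂ d N₁ N₂ J, ∃ T : Subgroup G₁, T.FG ∧ ∀ g, g ∈ T ↔ μ₁ g z = z := by
    rintro ⟨x, ⟨j, r⟩, q⟩
    refine ⟨(f₁.ker.map N₁.subtype).map (MulAut.conj (sg i₁ _ N₁ x)).toMonoidHom, ?_, ?_⟩
    · exact fg_map _ (fg_map _ hf₁)
    · intro g
      constructor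
      · rintro ⟨_, ⟨n, hn, rfl⟩, rfl⟩
        have h : (MulAut.conj (sg i₁ _ N₁ x)) (n : G₁) * sg i₁ _ N₁ x = sg i₁ _ N₁ x * n := by
          rw [MulAut.conj_apply]; group
        have h2 := nu₁_apply i₁ i₂ d N₁ N₂ hD₁ hD₂ F₁ F₂ h j r q
        have h3 : F₁ j n = 1 := hn
        rw [h3, toAdd_one, mul_zero, add_zero] at h2
        exact h2
      · intro hg
        obtain ⟨x', n, h⟩ := exists_smul (tau i₁ _ N₁ hD₁) (tau_mul i₁ _ N₁ hD₁) g x
        rw [tau_apply, tau_apply] at h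
        simp only [Subgroup.coe_one, mul_one] at h
        rw [hμ₁, nu₁_apply i₁ i₂ d N₁ N₂ hD₁ hD₂ F₁ F₂ h] at hg
        have h1 : x' = x := congrArg Prod.fst hg
        have h2 : q + wt d i₂ N₂ hD₂ F₂ j r * Multiplicative.toAdd (F₁ j n) = q :=
          congrArg (fun z => z.2.2) hg
        have h3 : wt d i₂ N₂ hD₂ F₂ j r * Multiplicative.toAdd (F₁ j n) = 0 := by omega
        rcases mul_eq_zero.1 h3 with h4 | h4
        · exact absurd h4 (hW₂ j r)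
        · subst h1
          refine ⟨n, ⟨n, Multiplicative.toAdd.injective h4, rfl⟩, ?_⟩
          show sg i₁ _ N₁ x' * n * (sg i₁ _ N₁ x')⁻¹ = g
          rw [← h]; group
  have st₂ : ∀ z : ZZ i₁ i₂ d N₁ N₂ J, ∃ T : Subgroup G₂, T.FG ∧ ∀ g, g ∈ T ↔ μ₂ g z = z := by
    rintro ⟨⟨p, s⟩, ⟨j, r⟩, q⟩
    refine ⟨(f₂.ker.map N₂.subtype).map (MulAut.conj (sg i₂ _ N₂ (p, r))).toMonoidHom, ?_, ?_⟩
    · exact fg_map _ (fg_map _ hf₂)
    · intro g
      constructor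
      · rintro ⟨_, ⟨n, hn, rfl⟩, rfl⟩
        have h : (MulAut.conj (sg i₂ _ N₂ (p, r))) (n : G₂) * sg i₂ _ N₂ (p, r) = sg i₂ _ N₂ (p, r) * n := by
          rw [MulAut.conj_apply]; group
        have h2 := nu₂_apply i₁ i₂ d N₁ N₂ hD₁ hD₂ F₁ F₂ h j s q
        have h3 : F₂ j n = 1 := hn
        rw [h3, toAdd_one, mul_zero, add_zero] at h2
        exact h2
      · intro hg
        obtain ⟨⟨p', r'⟩, n, h⟩ := exists_smul (tau i₂ _ N₂ hD₂) (tau_mul i₂ _ N₂ hD₂) g (p, r)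
        rw [tau_apply, tau_apply] at h
        simp only [Subgroup.coe_one, mul_one] at h
        rw [hμ₂, nu₂_apply i₁ i₂ d N₁ N₂ hD₁ hD₂ F₁ F₂ h] at hg
        have h1 : p' = p := congrArg (fun z => z.1.1) hg
        have h1' : r' = r := congrArg (fun z => z.2.1.2) hg
        have h2 : q + wt d i₁ N₁ hD₁ F₁ j s * Multiplicative.toAdd (F₂ j n) = q :=
          congrArg (fun z => z.2.2) hg
        have h3 : wt d i₁ N₁ hD₁ F₁ j s * Multiplicative.toAdd (F₂ j n) = 0 := by omega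
        rcases mul_eq_zero.1 h3 with h4 | h4
        · exact absurd h4 (hW₁ j s)
        · subst h1
          subst h1'
          refine ⟨n, ⟨n, Multiplicative.toAdd.injective h4, rfl⟩, ?_⟩
          show sg i₂ _ N₂ (p', r') * n * (sg i₂ _ N₂ (p', r'))⁻¹ = g
          rw [← h]; group
  -- the base point
  obtain ⟨z₀, hz₀⟩ : ∃ z : ZZ i₁ i₂ d N₁ N₂ J, z.2.2 = 0 :=
    ⟨((QuotientGroup.mk 1, Quotient.mk _ 1), (PUnit.unit, Quotient.mk _ 1), 0), rfl⟩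
  set H : Subgroup P := (MulAction.stabilizer (Equiv.Perm (ZZ i₁ i₂ d N₁ N₂ J)) z₀).comap ν with hH
  have hmemH : ∀ g, g ∈ H ↔ ν g z₀ = z₀ := fun g => Iff.rfl
  have inv_app : ∀ (g : P) (z : ZZ i₁ i₂ d N₁ N₂ J), ν g (ν g⁻¹ z) = z := by
    intro g z
    rw [map_inv]; exact (ν g).apply_symm_apply z
  -- action of `d`
  have actd : ∀ z : ZZ i₁ i₂ d N₁ N₂ J, ∃ v : ℤ, v ≠ 0 ∧ ∀ (k : ℤ) (q : ℤ),
      ν ((j₁ (i₁ d)) ^ k) (z.1, z.2.1, q) = (z.1, z.2.1, q + k * v) := by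
    rintro ⟨x, ⟨j, r⟩, q'⟩
    let n : N₁ := ⟨i₁ d, (hD₁ d).2 (Subgroup.mem_zpowers d)⟩
    have h := conj_eq d i₁ N₁ x n
    set n' : N₁ := ⟨(sg i₁ _ N₁ x)⁻¹ * n * sg i₁ _ N₁ x, by
        have := (inferInstance : N₁.Normal).conj_mem _ n.2 (sg i₁ _ N₁ x)⁻¹
        rwa [inv_inv] at this⟩ with hn'
    refine ⟨wt d i₂ N₂ hD₂ F₂ j r * Multiplicative.toAdd (F₁ j n'), ?_, ?_⟩
    · apply mul_ne_zero (hW₂ j r)
      intro h0
      exact hn₁ (sg i₁ _ N₁ x) n' rfl (Multiplicative.toAdd.injective h0)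
    · have h1 : ∀ q, ν (j₁ (i₁ d)) (x, (j, r), q) = (x, (j, r), q +
          wt d i₂ N₂ hD₂ F₂ j r * Multiplicative.toAdd (F₁ j n')) := by
        intro q
        rw [hν₁', hμ₁]
        exact nu₁_apply i₁ i₂ d N₁ N₂ hD₁ hD₂ F₁ F₂ h j r q
      generalize wt d i₂ N₂ hD₂ F₂ j r * Multiplicative.toAdd (F₁ j n') = v at h1
      have h2 : ∀ (k : ℕ) (q : ℤ), ν ((j₁ (i₁ d)) ^ k) (x, (j, r), q) = (x, (j, r), q + k * v) := by
        intro k
        induction k with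
        | zero => intro q; simp
        | succ k ih =>
          intro q
          rw [pow_succ, map_mul]
          show ν ((j₁ (i₁ d)) ^ k) (ν (j₁ (i₁ d)) (x, (j, r), q)) = _
          rw [h1, ih]
          congr 2
          push_cast; ring
      intro k q
      obtain ⟨m, rfl | rfl⟩ := k.eq_nat_or_neg
      · rw [zpow_natCast]; exact h2 m q
      · have h3 := h2 m (q + (-(m : ℤ)) * v)
        have h4 : q + -(m : ℤ) * v + m * v = q := by ring
        rw [h4] at h3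
        rw [zpow_neg, zpow_natCast]
        have h5 : ν (((j₁ (i₁ d)) ^ m)⁻¹) (ν ((j₁ (i₁ d)) ^ m) (x, (j, r), q + (-(m : ℤ)) * v)) =
            (x, (j, r), q + (-(m : ℤ)) * v) := by
          rw [map_inv]; exact (ν _).symm_apply_apply _
        rw [h3] at h5
        exact h5
  choose v hv hact using actd
  set D : Subgroup P := (j₁.comp i₁).range with hD
  have hHfg : H.FG := by
    -- representatives
    obtain ⟨B, hB⟩ := (Set.finite_range (fun y : (PP0 d × RR i₁ N₁) × (J × RR i₂ N₂) =>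
      |v (y.1, y.2, 0)|)).bddAbove
    set F : Set (ZZ i₁ i₂ d N₁ N₂ J) := {z | 0 ≤ z.2.2 ∧ z.2.2 ≤ B} with hF
    have hFf : F.Finite := by
      have h1 : ((Set.univ : Set (PP0 d × RR i₁ N₁)) ×ˢ ((Set.univ : Set (J × RR i₂ N₂)) ×ˢ
          (Set.Icc 0 B))).Finite := Set.finite_univ.prod (Set.finite_univ.prod (Set.finite_Icc _ _))
      refine h1.subset ?_
      rintro z ⟨h2, h3⟩
      exact ⟨trivial, trivial, h2, h3⟩
    have hg : ∀ z : ZZ i₁ i₂ d N₁ N₂ J, ∃ g : P, (∃ g', ν g' z = z₀) → ν g z = z₀ := by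
      intro z
      by_cases h : ∃ g', ν g' z = z₀
      · exact ⟨h.choose, fun _ => h.choose_spec⟩
      · exact ⟨1, fun h' => absurd h' h⟩
    choose γ hγ using hg
    refine bs j₁.range j₂.range D ?_ ?_ hgen H (γ '' F) (hFf.image _) ?_ ?_ ?_
    · rintro _ ⟨h, rfl⟩; exact ⟨_, rfl⟩
    · rintro _ ⟨h, rfl⟩; exact ⟨i₂ h, (DFunLike.congr_fun hj h).symm⟩
    · intro g
      set z := ν g⁻¹ z₀ with hz
      set w := v (z.1, z.2.1, 0) with hw
      have hw0 : w ≠ 0 := hv _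
      set k : ℤ := -(z.2.2 / w) with hk
      set δ : P := (j₁ (i₁ d)) ^ k with hδ
      have hδD : δ ∈ D := D.zpow_mem ⟨d, rfl⟩ k
      have hδz : ν δ z = (z.1, z.2.1, z.2.2 % w) := by
        have h1 := hact (z.1, z.2.1, 0) k z.2.2
        simp only at h1
        have h2 : z.2.2 + k * w = z.2.2 % w := by rw [hk, Int.emod_def]; ring
        rw [← hw, h2] at h1
        exact h1
      set f := ν δ z with hf
      have hfF : f ∈ F := by
        rw [hδz]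
        refine ⟨Int.emod_nonneg _ hw0, ?_⟩
        have h1 := Int.emod_lt_abs z.2.2 hw0
        have h2 : |w| ≤ B := hB ⟨(z.1, z.2.1), rfl⟩
        simp only
        linarith
      have h1 : ν (g * δ⁻¹) f = z₀ := by
        rw [map_mul, hf]
        show ν g (ν δ⁻¹ (ν δ z)) = z₀
        have : ν δ⁻¹ (ν δ z) = z := by rw [map_inv]; exact (ν δ).symm_apply_apply _
        rw [this, hz, inv_app]
      have h2 := hγ f ⟨_, h1⟩
      refine ⟨g * δ⁻¹ * (γ f)⁻¹, ?_, γ f, ⟨f, hfF, rfl⟩, δ, hδD, by group⟩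
      rw [hmemH, map_mul]
      show ν (g * δ⁻¹) (ν (γ f)⁻¹ z₀) = z₀
      have h3 : ν (γ f)⁻¹ z₀ = f := by
        rw [← h2, map_inv]; exact (ν (γ f)).symm_apply_apply _
      rw [h3, h1]
    · intro e
      obtain ⟨T, hT, hT'⟩ := st₁ (ν e⁻¹ z₀)
      have heq : H ⊓ j₁.range.map (MulAut.conj e).toMonoidHom = (T.map j₁).map (MulAut.conj e).toMonoidHom := by
        ext y
        constructor
        · rintro ⟨hy, _, ⟨g, rfl⟩, rfl⟩
          refine ⟨j₁ g, ⟨g, ?_, rfl⟩, rfl⟩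
          rw [SetLike.mem_coe, hT']
          have hy2 : ν (e * j₁ g * e⁻¹) z₀ = z₀ := hy
          have h1 : ν e (ν (j₁ g) (ν e⁻¹ z₀)) = z₀ := by
            rw [map_mul, map_mul] at hy2
            exact hy2
          rw [hν₁'] at h1
          apply (ν e).injective
          rw [h1, inv_app]
        · rintro ⟨_, ⟨g, hg, rfl⟩, rfl⟩
          refine ⟨?_, ⟨j₁ g, ⟨g, rfl⟩, rfl⟩⟩
          rw [SetLike.mem_coe, hT'] at hg
          show ν (e * j₁ g * e⁻¹) z₀ = z₀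
          rw [map_mul, map_mul]
          show ν e (ν (j₁ g) (ν e⁻¹ z₀)) = z₀
          rw [hν₁', hg, inv_app]
      rw [heq]
      exact fg_map _ (fg_map _ hT)
    · intro e
      obtain ⟨T, hT, hT'⟩ := st₂ (ν e⁻¹ z₀)
      have heq : H ⊓ j₂.range.map (MulAut.conj e).toMonoidHom = (T.map j₂).map (MulAut.conj e).toMonoidHom := by
        ext y
        constructor
        · rintro ⟨hy, _, ⟨g, rfl⟩, rfl⟩
          refine ⟨j₂ g, ⟨g, ?_, rfl⟩, rfl⟩
          rw [SetLike.mem_coe, hT']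
          have hy2 : ν (e * j₂ g * e⁻¹) z₀ = z₀ := hy
          have h1 : ν e (ν (j₂ g) (ν e⁻¹ z₀)) = z₀ := by
            rw [map_mul, map_mul] at hy2
            exact hy2
          rw [hν₂'] at h1
          apply (ν e).injective
          rw [h1, inv_app]
        · rintro ⟨_, ⟨g, hg, rfl⟩, rfl⟩
          refine ⟨?_, ⟨j₂ g, ⟨g, rfl⟩, rfl⟩⟩
          rw [SetLike.mem_coe, hT'] at hg
          show ν (e * j₂ g * e⁻¹) z₀ = z₀
          rw [map_mul, map_mul]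
          show ν e (ν (j₂ g) (ν e⁻¹ z₀)) = z₀
          rw [hν₂', hg, inv_app]
      rw [heq]
      exact fg_map _ (fg_map _ hT)
  -- the subgroup of finite index
  have hsh : ∀ (g : P) (q : ℤ) (z : ZZ i₁ i₂ d N₁ N₂ J), ν g (sh _ _ q z) = sh _ _ q (ν g z) :=
    fun g q z => keyP g q z
  have hsh0 : ∀ q : ℤ, (sh (PP0 d × RR i₁ N₁) (J × RR i₂ N₂) q z₀).2.2 = q := by
    intro q
    show z₀.2.2 + q = q
    rw [hz₀, zero_add]
  have hshadd : ∀ (a b : ℤ) (z : ZZ i₁ i₂ d N₁ N₂ J), sh (PP0 d × RR i₁ N₁) (J × RR i₂ N₂) a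
      (sh _ _ b z) = sh _ _ (b + a) z := by
    intro a b z
    simp only [sh, add_assoc]
  let K : Subgroup P :=
    { carrier := {g | ∃ q : ℤ, ν g z₀ = sh _ _ q z₀}
      one_mem' := ⟨0, by simp [sh]⟩
      mul_mem' := by
        rintro a b ⟨qa, ha⟩ ⟨qb, hb⟩
        refine ⟨qa + qb, ?_⟩
        rw [map_mul]
        show ν a (ν b z₀) = _
        rw [hb, hsh, ha, hshadd]
      inv_mem' := by
        rintro a ⟨qa, ha⟩
        refine ⟨-qa, ?_⟩
        apply (ν a).injective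
        rw [inv_app, hsh, ha, hshadd, add_neg_cancel]
        simp [sh] }
  have hKmem : ∀ g, g ∈ K ↔ ∃ q : ℤ, ν g z₀ = sh _ _ q z₀ := fun g => Iff.rfl
  have hKχ : ∀ g ∈ K, ν g z₀ = sh _ _ (ν g z₀).2.2 z₀ := by
    rintro g ⟨q, hq⟩
    conv_rhs => rw [hq, hsh0]
    exact hq
  let χ : K →* Multiplicative ℤ :=
    { toFun := fun g => Multiplicative.ofAdd (ν (g : P) z₀).2.2
      map_one' := by
        show Multiplicative.ofAdd (ν (1 : P) z₀).2.2 = 1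
        rw [map_one]
        show Multiplicative.ofAdd z₀.2.2 = 1
        rw [hz₀]; rfl
      map_mul' := by
        rintro ⟨a, ha⟩ ⟨b, hb⟩
        show Multiplicative.ofAdd (ν (a * b) z₀).2.2 = _
        rw [map_mul, ← ofAdd_add]
        show Multiplicative.ofAdd (ν a (ν b z₀)).2.2 = _
        congr 1
        rw [hKχ b hb, hsh]
        show (ν a z₀).2.2 + _ = _
        rw [hsh0] }
  refine ⟨K, ?_, χ, ?_, ?_⟩
  · apply fi_crit (X := (PP0 d × RR i₁ N₁) × (J × RR i₂ N₂)) K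
      (fun g => ((ν g z₀).1, (ν g z₀).2.1))
    intro a b hab
    simp only [Prod.mk.injEq] at hab
    obtain ⟨h1, h2⟩ := hab
    refine ⟨(ν b z₀).2.2 - (ν a z₀).2.2, ?_⟩
    apply (ν a).injective
    rw [hsh, map_mul]
    show ν a (ν a⁻¹ (ν b z₀)) = _
    rw [inv_app]
    apply Prod.ext
    · exact h1.symm
    · apply Prod.ext
      · exact h2.symm
      · show _ = (ν a z₀).2.2 + ((ν b z₀).2.2 - (ν a z₀).2.2)
        ring
  · intro h
    have h1 := hact z₀ 1 z₀.2.2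
    rw [zpow_one] at h1
    have h2 : ν (j₁ (i₁ d)) z₀ = (z₀.1, z₀.2.1, z₀.2.2 + 1 * v z₀) := h1
    have h3 : j₁ (i₁ d) ∈ K := by
      refine ⟨v z₀, ?_⟩
      rw [h2]
      simp [sh]
    have h4 : Multiplicative.ofAdd (ν (j₁ (i₁ d)) z₀).2.2 = 1 := DFunLike.congr_fun h ⟨_, h3⟩
    rw [h2] at h4
    have h5 : z₀.2.2 + 1 * v z₀ = 0 := h4
    rw [hz₀] at h5
    exact hv z₀ (by linarith)
  · have hHK : H ≤ K := by
      intro g hg
      exact ⟨0, by rw [(hmemH g).1 hg]; simp [sh]⟩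
    have heq : χ.ker = H.subgroupOf K := by
      ext ⟨g, hg⟩
      rw [MonoidHom.mem_ker, Subgroup.mem_subgroupOf]
      show Multiplicative.ofAdd (ν g z₀).2.2 = 1 ↔ ν g z₀ = z₀
      constructor
      · intro h
        have h1 : (ν g z₀).2.2 = 0 := h
        rw [hKχ g hg, h1]
        simp [sh]
      · intro h
        rw [h, hz₀]; rfl
    rw [heq, ← Group.fg_iff_subgroup_fg]
    have h1 : Group.FG H := (Group.fg_iff_subgroup_fg H).2 hHfg
    exact Group.fg_of_surjective (f := (Subgroup.subgroupOfEquivOfLe hHK).symm.toMonoidHom)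
      (Subgroup.subgroupOfEquivOfLe hHK).symm.surjective

end Q31VF
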