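import Mathlib
import Pool.Agent.Q31.VF.E
set_option autoImplicit false

/-! Virtual fibering of amalgams over infinite virtually cyclic virtual retracts. -/

namespace Q31VF

universe u

theorem final {G : Fin 2 → Type u} {G₀ : Type u} [∀ i, Group (G i)] [Group G₀] (φ : ∀ i, G₀ →* G i)
    (hφ : ∀ i, Function.Injective (φ i)) (h₀ : Q31VA.VirtuallyCyclic G₀) (hinf : Infinite G₀)
    (hF : ∀ i, VirtuallyFibered (G i)) (hR : ∀ i, IsVirtualRetract (φ i).range) :
    VirtuallyFibered (Monoid.PushoutI φ) := by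
  obtain ⟨C, hC, hcyc⟩ := h₀
  obtain ⟨c', hc'⟩ := hcyc.exists_generator
  have hCinf : Infinite C := by
    rw [← not_finite_iff_infinite]
    intro hf
    have h1 := C.card_mul_index
    rw [Nat.card_eq_zero_of_infinite (α := G₀)] at h1
    rcases Nat.mul_eq_zero.1 h1 with h2 | h2
    · exact Nat.card_pos.ne' h2
    · exact hC.index_ne_zero h2
  set c : G₀ := (c' : G₀) with hcdef
  have hCz : C = Subgroup.zpowers c := by
    apply le_antisymm
    · intro x hx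
      obtain ⟨j, hj⟩ := Subgroup.mem_zpowers_iff.1 (hc' ⟨x, hx⟩)
      rw [Subgroup.mem_zpowers_iff]
      exact ⟨j, congrArg Subtype.val hj⟩
    · rw [Subgroup.zpowers_le]; exact c'.2
  have hc : ∀ m : ℤ, m ≠ 0 → c ^ m ≠ 1 := by
    intro m hm h
    have h1 : IsOfFinOrder c' := by
      rw [isOfFinOrder_iff_zpow_eq_one]
      exact ⟨m, hm, Subtype.ext (by rw [Subgroup.coe_zpow]; exact h)⟩
    have h2 : (Subgroup.zpowers c' : Set C).Finite := finite_zpowers.2 h1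
    have h3 : (Set.univ : Set C).Finite := h2.subset (fun x _ => hc' x)
    exact Set.infinite_univ h3
  rw [hCz] at hC
  obtain ⟨m₁, hm₁, H₁⟩ := latt (φ 0) (hφ 0) c hc hC (hF 0) (hR 0)
  obtain ⟨m₂, hm₂, H₂⟩ := latt (φ 1) (hφ 1) c hc hC (hF 1) (hR 1)
  obtain ⟨N₁, a₁, b₁, D₁, f₁, e₁, g₁⟩ := H₁ (m₁ * m₂) (Nat.mul_pos hm₁ hm₂) (Dvd.intro _ rfl)
  obtain ⟨N₂, a₂, b₂, D₂, f₂, e₂, g₂⟩ := H₂ (m₁ * m₂) (Nat.mul_pos hm₁ hm₂) (Dvd.intro_left _ rfl)
  refine mainF (φ 0) (φ 1) (c ^ (m₁ * m₂)) N₁ N₂ D₁ D₂ f₁ f₂ e₁ e₂ g₁ g₂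
    (Monoid.PushoutI.of 0) (Monoid.PushoutI.of 1) ?_ ?_ ?_
  · rw [Monoid.PushoutI.of_comp_eq_base, Monoid.PushoutI.of_comp_eq_base]
  · rw [eq_top_iff]
    rintro x -
    induction x using Monoid.PushoutI.induction_on with
    | of i g =>
      revert g
      fin_cases i
      · intro g; exact Subgroup.mem_sup_left ⟨g, rfl⟩
      · intro g; exact Subgroup.mem_sup_right ⟨g, rfl⟩
    | base h =>
      rw [← Monoid.PushoutI.of_apply_eq_base φ 0]
      exact Subgroup.mem_sup_left ⟨_, rfl⟩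
    | mul x y hx hy => exact Subgroup.mul_mem _ hx hy
  · intro K _ a b hab
    let f : ∀ i, G i →* K := Fin.cons a (Fin.cons b finZeroElim)
    have hf : ∀ i, (f i).comp (φ i) = a.comp (φ 0) := by
      intro i
      fin_cases i
      · rfl
      · exact hab.symm
    refine ⟨Monoid.PushoutI.lift f (a.comp (φ 0)) hf, ?_, ?_⟩
    · ext g; exact Monoid.PushoutI.lift_of f _ hf g
    · ext g; exact Monoid.PushoutI.lift_of f _ hf g

end Q31VF
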